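import Pool.Agent.V7H4.PD.Bu

/-!
# Burnside's theorem on transitive permutation groups of prime degree
-/

set_option autoImplicit false

open scoped Classical

namespace Pool.Agent.V7H4.PD

variable {p : ℕ} [Fact p.Prime]

/-- an element of order `p` of a symmetric group of degree `p` is a translation -/
lemma exists_equiv {Y : Type} [Fintype Y] (hcard : Fintype.card Y = p) (σ : Equiv.Perm Y)
    (hσ : orderOf σ = p) : ∃ e : Y ≃ ZMod p, ∀ y, e (σ y) = e y + 1 := by
  have hp : p.Prime := Fact.out
  have hpow : σ ^ p = 1 := by rw [← hσ]; exact pow_orderOf_eq_one σ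
  obtain ⟨y0, hy0⟩ : ∃ y, σ y ≠ y := by
    by_contra hcon
    push Not at hcon
    have : σ = 1 := Equiv.ext hcon
    rw [this, orderOf_one] at hσ
    exact hp.one_lt.ne hσ
  have hper : Function.IsPeriodicPt σ p y0 := by
    have h1 : (σ^[p]) y0 = (σ ^ p) y0 := by rw [← Equiv.Perm.iterate_eq_pow]
    change (σ^[p]) y0 = y0
    rw [h1, hpow]
    rfl
  have hmin : Function.minimalPeriod σ y0 = p := by
    have h1 := hper.minimalPeriod_dvd
    rcases (Nat.dvd_prime hp).1 h1 with h2 | h2
    · exact absurd (Function.minimalPeriod_eq_one_iff_isFixedPt.1 h2) hy0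
    · exact h2
  set f : ZMod p → Y := fun k => (σ^[k.val]) y0 with hf
  have hinj : Function.Injective f := by
    intro a b hab
    have h1 := Function.iterate_injOn_Iio_minimalPeriod (f := σ) (x := y0)
    rw [hmin] at h1
    exact ZMod.val_injective p (h1 (Set.mem_Iio.2 (ZMod.val_lt a)) (Set.mem_Iio.2 (ZMod.val_lt b))
      hab)
  have hbij : Function.Bijective f := by
    rw [Fintype.bijective_iff_injective_and_card]
    exact ⟨hinj, by rw [ZMod.card, hcard]⟩
  have hstep : ∀ k, f (k + 1) = σ (f k) := by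
    intro k
    have h1 : (k + 1).val = (k.val + 1) % p := by
      rw [ZMod.val_add, ZMod.val_one]
    simp only [hf]
    rw [h1]
    have h2 := Function.iterate_mod_minimalPeriod_eq (f := σ) (x := y0) (n := k.val + 1)
    rw [hmin] at h2
    rw [h2, Function.iterate_succ_apply']
  refine ⟨(Equiv.ofBijective f hbij).symm, fun y => ?_⟩
  rw [Equiv.symm_apply_eq, Equiv.ofBijective_apply, hstep]
  congr 1
  exact (Equiv.ofBijective_apply_symm_apply f hbij y).symm

variable {G : Type} [Group G] {Y : Type} [MulAction G Y]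

/-- two-transitive actions -/
def Two' (G Y : Type) [Group G] [MulAction G Y] : Prop :=
  ∀ y z y' z' : Y, y ≠ z → y' ≠ z' → ∃ g : G, g • y = y' ∧ g • z = z'

/-- a transitive group of prime degree contains a translation -/
lemma exists_translation [Finite G] [Fintype Y] (hcard : Fintype.card Y = p)
    [MulAction.IsPretransitive G Y] :
    ∃ (e : Y ≃ ZMod p) (t : G), ∀ y, e (t • y) = e y + 1 := by
  have hp : p.Prime := Fact.out
  have hne : Nonempty Y := by
    rw [← Fintype.card_pos_iff, hcard]
    exact hp.pos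
  obtain ⟨y0⟩ := hne
  set R : Subgroup (Equiv.Perm Y) := (MulAction.toPermHom G Y).range with hR
  have hpre : MulAction.IsPretransitive R Y := by
    refine ⟨fun y z => ?_⟩
    obtain ⟨g, hg⟩ := MulAction.exists_smul_eq G y z
    exact ⟨⟨MulAction.toPermHom G Y g, ⟨g, rfl⟩⟩, hg⟩
  have hdvd : p ∣ Nat.card R := by
    have h1 : (MulAction.stabilizer R y0).index = p := by
      rw [MulAction.index_stabilizer_of_transitive, Nat.card_eq_fintype_card, hcard]
    rw [← h1]
    exact Subgroup.index_dvd_card _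
  obtain ⟨σ, hσ⟩ := exists_prime_orderOf_dvd_card' p hdvd
  have hσ' : orderOf (σ : Equiv.Perm Y) = p := by rw [Subgroup.orderOf_coe, hσ]
  obtain ⟨e, he⟩ := exists_equiv hcard (σ : Equiv.Perm Y) hσ'
  obtain ⟨t, ht⟩ := σ.2
  refine ⟨e, t, fun y => ?_⟩
  rw [← he, ← ht]
  rfl

/-- **Burnside's theorem.** -/
theorem burnside [Finite G] [Fintype Y] (hcard : Fintype.card Y = p)
    [MulAction.IsPretransitive G Y] (h2 : ¬ Two' G Y) :
    ∃ (e : Y ≃ ZMod p) (t : G), (∀ y, e (t • y) = e y + 1) ∧
      ∀ g : G, ∃ a b : ZMod p, ∀ y, e (g • y) = a * e y + b := by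
  have hp : p.Prime := Fact.out
  obtain ⟨e, t, ht⟩ := exists_translation (G := G) hcard
  refine ⟨e, t, ht, ?_⟩
  have htk : ∀ (k : ℕ) (y : Y), e ((t ^ k) • y) = e y + k := by
    intro k
    induction k with
    | zero => intro y; simp
    | succ k ih =>
      intro y
      rw [pow_succ, mul_smul, ih, ht]
      push_cast
      ring
  have hshift : ∀ c : ZMod p, ∃ s : G, ∀ y, e (s • y) = e y + c := by
    intro c
    refine ⟨t ^ c.val, fun y => ?_⟩
    rw [htk, ZMod.natCast_zmod_val]
  unfold Two' at h2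
  push Not at h2
  obtain ⟨y, z, y', z', hyz, hyz', hno⟩ := h2
  set U : Finset (ZMod p) := Finset.univ.filter (fun u => ∃ g : G, e (g • z) - e (g • y) = u)
    with hUdef
  have hmem : ∀ u, u ∈ U ↔ ∃ g : G, e (g • z) - e (g • y) = u := by
    intro u
    simp [hUdef]
  have h0U : (0 : ZMod p) ∉ U := by
    rw [hmem]
    rintro ⟨g, hg⟩
    have h3 := e.injective (sub_eq_zero.1 hg)
    exact hyz (smul_left_cancel g h3).symm
  -- pairs with a difference in `U`
  have hpair : ∀ i j, j - i ∈ U → ∃ g : G, e (g • y) = i ∧ e (g • z) = j := by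
    intro i j hij
    obtain ⟨g, hg⟩ := (hmem _).1 hij
    obtain ⟨s, hs⟩ := hshift (i - e (g • y))
    refine ⟨s * g, ?_, ?_⟩
    · rw [mul_smul, hs]
      ring
    · rw [mul_smul, hs]
      linear_combination hg
  have hpres : ∀ (g : G) (i j : ZMod p), j - i ∈ U →
      e (g • e.symm j) - e (g • e.symm i) ∈ U := by
    intro g i j hij
    obtain ⟨h, h3, h4⟩ := hpair i j hij
    rw [hmem]
    refine ⟨g * h, ?_⟩
    rw [mul_smul, mul_smul, ← h3, ← h4, Equiv.symm_apply_apply, Equiv.symm_apply_apply]
  have hnot : e z' - e y' ∉ U := by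
    intro h3
    obtain ⟨g, h4, h5⟩ := hpair _ _ h3
    exact hno g (e.injective h4) (e.injective h5)
  have hz'0 : e z' - e y' ≠ 0 := by
    rw [Ne, sub_eq_zero]
    exact fun h => hyz' (e.injective h).symm
  -- the smaller one of `U` and of the complement
  obtain ⟨V, hV1, hV2, hV3, hV4⟩ : ∃ V : Finset (ZMod p), V.Nonempty ∧ (0 : ZMod p) ∉ V ∧
      2 * V.card < p ∧ ∀ (g : G) (i j : ZMod p), j - i ∈ V →
        e (g • e.symm j) - e (g • e.symm i) ∈ V := by
    by_cases hc : 2 * U.card < p
    · refine ⟨U, ⟨e z - e y, (hmem _).2 ⟨1, by simp⟩⟩, h0U, hc, hpres⟩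
    · refine ⟨(insert 0 U)ᶜ, ⟨e z' - e y', ?_⟩, ?_, ?_, ?_⟩
      · rw [Finset.mem_compl, Finset.mem_insert]
        push Not
        exact ⟨hz'0, hnot⟩
      · simp
      · rw [Finset.card_compl, Finset.card_insert_of_notMem h0U, ZMod.card]
        have := hp.pos
        omega
      · intro g i j hij
        rw [Finset.mem_compl, Finset.mem_insert] at hij ⊢
        push Not at hij ⊢
        refine ⟨?_, fun h3 => hij.2 ?_⟩
        · rw [Ne, sub_eq_zero]
          intro h3
          have h4 := smul_left_cancel g (e.injective h3)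
          exact hij.1 (sub_eq_zero.2 (e.symm.injective h4))
        · have h4 := hpres g⁻¹ _ _ h3
          simpa using h4
  intro g
  set π : ZMod p → ZMod p := fun i => e (g • e.symm i) with hπ
  have hinj : Function.Injective π := by
    intro i j hij
    exact e.symm.injective (smul_left_cancel g (e.injective hij))
  obtain ⟨a, b, hab⟩ := affine_of_diff V hV1 hV2 hV3 π hinj (fun i j h => hV4 g i j h)
  refine ⟨a, b, fun w => ?_⟩
  have := hab (e w)
  simp only [hπ, Equiv.symm_apply_apply] at this
  exact this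

end Pool.Agent.V7H4.PD
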