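import Mathlib

/-!
# Burnside's theorem on transitive permutation groups of prime degree

The proof is that of P. Müller (2005), with polynomials over the field with `p` elements.
-/

set_option autoImplicit false

open scoped Classical
open Polynomial

namespace Pool.Agent.V7H4.PD

variable {p : ℕ} [Fact p.Prime]

/-- a power sum of a set of nonzero elements is not zero -/
lemma exists_power_sum (U : Finset (ZMod p)) (hU : U.Nonempty) (h0 : (0 : ZMod p) ∉ U) :
    ∃ r, 1 ≤ r ∧ r ≤ U.card ∧ ∑ u ∈ U, u ^ r ≠ 0 := by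
  by_contra hcon
  push Not at hcon
  obtain ⟨v, hv⟩ := hU
  set f : (ZMod p)[X] := X * ∏ u ∈ U.erase v, (X - C u) with hf
  have hdeg : f.natDegree ≤ U.card := by
    rw [hf]
    refine (natDegree_mul_le).trans ?_
    rw [natDegree_X, natDegree_prod_of_monic _ _ (fun u _ => monic_X_sub_C u)]
    simp only [natDegree_X_sub_C, Finset.sum_const, smul_eq_mul, mul_one]
    rw [Finset.card_erase_of_mem hv]
    have := Finset.card_pos.2 ⟨v, hv⟩
    omega
  have h1 : ∑ u ∈ U, f.eval u = f.eval v := by
    refine Finset.sum_eq_single_of_mem v hv (fun u hu huv => ?_)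
    rw [hf, eval_mul, eval_prod]
    refine mul_eq_zero_of_right _ (Finset.prod_eq_zero (Finset.mem_erase.2 ⟨huv, hu⟩) ?_)
    simp
  have h2 : f.eval v ≠ 0 := by
    rw [hf, eval_mul, eval_prod, eval_X]
    refine mul_ne_zero (fun h => h0 (h ▸ hv)) (Finset.prod_ne_zero_iff.2 (fun u hu => ?_))
    rw [eval_sub, eval_X, eval_C, sub_ne_zero]
    exact (Finset.ne_of_mem_erase hu).symm
  apply h2
  rw [← h1]
  have h3 : ∀ u : ZMod p, f.eval u = ∑ i ∈ Finset.range (U.card + 1), f.coeff i * u ^ i := by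
    intro u
    exact eval_eq_sum_range' (Nat.lt_succ_of_le hdeg) u
  simp only [h3]
  rw [Finset.sum_comm]
  refine Finset.sum_eq_zero (fun i hi => ?_)
  rw [← Finset.mul_sum]
  rcases Nat.eq_zero_or_pos i with rfl | hpos
  · have : f.coeff 0 = 0 := by
      rw [hf, mul_coeff_zero, coeff_X_zero, zero_mul]
    rw [this, zero_mul]
  · rw [hcon i hpos (Nat.lt_succ_iff.1 (Finset.mem_range.1 hi)), mul_zero]

/-- the coefficients of a translate of a polynomial, summed over the translations -/
lemma coeff_sum_taylor (Q : (ZMod p)[X]) {d r : ℕ} (hQ : Q.natDegree ≤ d) (hr : 1 ≤ r) (hrd : r ≤ d)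
    (U : Finset (ZMod p)) (hw : ∀ i, 1 ≤ i → i < r → ∑ u ∈ U, u ^ i = 0) :
    (∑ u ∈ U, Q.comp (X + C u)).coeff (d - r) =
      Q.coeff (d - r) * U.card + Q.coeff d * (d.choose (d - r) : ZMod p) * ∑ u ∈ U, u ^ r := by
  have h1 : ∀ u : ZMod p, (Q.comp (X + C u)).coeff (d - r) =
      ∑ i ∈ Finset.range (d + 1), Q.coeff i * (i.choose (d - r) : ZMod p) * u ^ (i - (d - r)) := by
    intro u
    rw [comp, eval₂_eq_sum_range' _ (Nat.lt_succ_of_le hQ), finsetSum_coeff]
    refine Finset.sum_congr rfl (fun i _ => ?_)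
    rw [coeff_C_mul, coeff_X_add_C_pow]
    ring
  rw [finsetSum_coeff]
  simp only [h1]
  rw [Finset.sum_comm]
  simp only [← Finset.mul_sum]
  rw [Finset.sum_eq_add_of_mem (d - r) d (Finset.mem_range.2 (by omega))
    (Finset.mem_range.2 (by omega)) (by omega)]
  · have h2 : d - (d - r) = r := by omega
    rw [h2, Nat.sub_self, Nat.choose_self]
    simp
  · intro i hi hne
    rcases lt_or_ge i (d - r) with h3 | h3
    · rw [Nat.choose_eq_zero_of_lt h3]
      simp
    · have h4 : i < d + 1 := Finset.mem_range.1 hi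
      rw [hw (i - (d - r)) (by omega) (by omega), mul_zero]

/-- the coefficients of the powers of `P + u`, summed over `u` -/
lemma coeff_sum_pow (P : (ZMod p)[X]) {n m r : ℕ} (hP : P.natDegree ≤ n) (hn : 2 ≤ n) (hr : 1 ≤ r)
    (U : Finset (ZMod p)) (hw : ∀ i, 1 ≤ i → i < r → ∑ u ∈ U, u ^ i = 0) (hrm : r ≤ m * n) :
    (∑ u ∈ U, (P + C u) ^ m).coeff (m * n - r) = (P ^ m).coeff (m * n - r) * U.card := by
  have h1 : ∀ u : ZMod p, ((P + C u) ^ m).coeff (m * n - r) =
      ∑ j ∈ Finset.range (m + 1), (P ^ j).coeff (m * n - r) * (m.choose j : ZMod p) *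
        u ^ (m - j) := by
    intro u
    rw [add_pow, finsetSum_coeff]
    refine Finset.sum_congr rfl (fun j _ => ?_)
    have h2 : P ^ j * C u ^ (m - j) * ((m.choose j : ℕ) : (ZMod p)[X]) =
        C (u ^ (m - j) * (m.choose j : ZMod p)) * P ^ j := by
      rw [C_mul, C_pow]
      simp only [map_natCast]
      ring
    rw [h2, coeff_C_mul]
    ring
  rw [finsetSum_coeff]
  simp only [h1]
  rw [Finset.sum_comm]
  simp only [← Finset.mul_sum]
  rw [Finset.sum_eq_single_of_mem m (Finset.mem_range.2 (by omega))]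
  · rw [Nat.choose_self, Nat.sub_self]
    simp
  · intro j hj hne
    have hjm : j < m := by
      have := Finset.mem_range.1 hj
      omega
    rcases lt_or_ge (m - j) r with h3 | h3
    · rw [hw (m - j) (by omega) h3, mul_zero]
    · have h4 : (P ^ j).coeff (m * n - r) = 0 := by
        refine coeff_eq_zero_of_natDegree_lt (lt_of_le_of_lt natDegree_pow_le ?_)
        have h5 : j * P.natDegree ≤ j * n := Nat.mul_le_mul_left j hP
        obtain ⟨k, rfl⟩ : ∃ k, m = j + k := ⟨m - j, by omega⟩
        have h6 : r ≤ k := by omega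
        have h7 : (j + k) * n = j * n + k * n := by ring
        have h8 : r * 2 ≤ k * n := Nat.mul_le_mul h6 hn
        omega
      rw [h4, zero_mul, zero_mul]

/-- **Müller's lemma.** -/
theorem affine_of_diff (U : Finset (ZMod p)) (hU : U.Nonempty) (h0 : (0 : ZMod p) ∉ U)
    (hc : 2 * U.card < p) (π : ZMod p → ZMod p) (hπ : Function.Injective π)
    (h : ∀ i j, j - i ∈ U → π j - π i ∈ U) : ∃ a b, ∀ i, π i = a * i + b := by
  have hp : p.Prime := Fact.out
  set P : (ZMod p)[X] := Lagrange.interpolate Finset.univ id π with hPdef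
  have hinj : Set.InjOn (id : ZMod p → ZMod p) (Finset.univ : Finset (ZMod p)) :=
    fun _ _ _ _ h => h
  have hev : ∀ i, P.eval i = π i := fun i =>
    Lagrange.eval_interpolate_at_node π hinj (Finset.mem_univ i)
  have hdegP : P.degree < (p : WithBot ℕ) := by
    have := Lagrange.degree_interpolate_lt (s := (Finset.univ : Finset (ZMod p))) π hinj
    rwa [Finset.card_univ, ZMod.card] at this
  have hne0 : P ≠ 0 := by
    intro h1
    have h2 : π 0 = π 1 := by rw [← hev, ← hev, h1, eval_zero, eval_zero]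
    exact zero_ne_one (hπ h2)
  have hndeg : P.natDegree < p := (natDegree_lt_iff_degree_lt hne0).2 hdegP
  by_cases hn : P.natDegree ≤ 1
  · refine ⟨P.coeff 1, P.coeff 0, fun i => ?_⟩
    rw [← hev, eval_eq_sum_range' (Nat.lt_succ_of_le hn)]
    simp [Finset.sum_range_succ]
    ring
  exfalso
  push Not at hn
  set n := P.natDegree with hndef
  have hn2 : 2 ≤ n := hn
  have hex : ∃ r, 1 ≤ r ∧ ∑ u ∈ U, u ^ r ≠ 0 := by
    obtain ⟨r, h1, _, h3⟩ := exists_power_sum U hU h0
    exact ⟨r, h1, h3⟩
  set r := Nat.find hex with hrdef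
  obtain ⟨hr1, hrw⟩ := Nat.find_spec hex
  have hrU : r ≤ U.card := by
    obtain ⟨s, h1, h2, h3⟩ := exists_power_sum U hU h0
    exact (Nat.find_min' hex ⟨h1, h3⟩).trans h2
  have hw : ∀ i, 1 ≤ i → i < r → ∑ u ∈ U, u ^ i = 0 := by
    intro i h1 h2
    have := Nat.find_min hex h2
    push Not at this
    exact this h1
  set m := (p - 1) / n with hm
  have hm1 : 1 ≤ m := by
    rw [hm]
    exact (Nat.one_le_div_iff (by omega)).2 (by omega)
  have hmn : m * n ≤ p - 1 := Nat.div_mul_le_self _ _
  have hmn2 : p - 1 < m * n + n := by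
    have := Nat.lt_div_mul_add (a := p - 1) (b := n) (by omega)
    rwa [← hm] at this
  have hnm : n ≤ m * n := by nlinarith
  have hrD : r ≤ m * n := by omega
  have hDp : m * n < p := by
    have := hp.pos
    omega
  have hA : (∑ u ∈ U, (P ^ m).comp (X + C u)) = ∑ u ∈ U, (P + C u) ^ m := by
    have hdA : (∑ u ∈ U, (P ^ m).comp (X + C u)).degree < (Finset.univ : Finset (ZMod p)).card := by
      rw [Finset.card_univ, ZMod.card]
      refine lt_of_le_of_lt (degree_sum_le _ _) ?_
      refine (Finset.sup_lt_iff (WithBot.bot_lt_coe _)).2 (fun u _ => ?_)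
      refine lt_of_le_of_lt degree_le_natDegree ?_
      have : ((P ^ m).comp (X + C u)).natDegree ≤ m * n := by
        refine natDegree_comp_le.trans ?_
        rw [natDegree_X_add_C, mul_one]
        exact natDegree_pow_le
      exact_mod_cast lt_of_le_of_lt this hDp
    have hdB : (∑ u ∈ U, (P + C u) ^ m).degree < (Finset.univ : Finset (ZMod p)).card := by
      rw [Finset.card_univ, ZMod.card]
      refine lt_of_le_of_lt (degree_sum_le _ _) ?_
      refine (Finset.sup_lt_iff (WithBot.bot_lt_coe _)).2 (fun u _ => ?_)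
      refine lt_of_le_of_lt degree_le_natDegree ?_
      have : ((P + C u) ^ m).natDegree ≤ m * n := by
        refine natDegree_pow_le.trans (Nat.mul_le_mul_left m ?_)
        rw [natDegree_add_C]
      exact_mod_cast lt_of_le_of_lt this hDp
    refine eq_of_degrees_lt_of_eval_finset_eq Finset.univ hdA hdB (fun i _ => ?_)
    rw [eval_finsetSum, eval_finsetSum]
    have hmaps : ∀ u ∈ U, π (i + u) - π i ∈ U := fun u hu => h i (i + u) (by simpa using hu)
    have hinjU : Set.InjOn (fun u => π (i + u) - π i) (U : Set (ZMod p)) := by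
      intro u _ v _ huv
      have h1 : π (i + u) = π (i + v) := sub_left_inj.1 huv
      exact add_left_cancel (hπ h1)
    have hsurj : Set.SurjOn (fun u => π (i + u) - π i) (U : Set (ZMod p)) (U : Set (ZMod p)) :=
      Finset.surjOn_of_injOn_of_card_le _ hmaps hinjU le_rfl
    refine Finset.sum_nbij (fun u => π (i + u) - π i) hmaps hinjU hsurj (fun u _ => ?_)
    rw [eval_comp, eval_pow, eval_pow, eval_add, eval_add, eval_X, eval_C, eval_C, hev, hev]
    ring
  have h3 := coeff_sum_taylor (P ^ m) (d := m * n) natDegree_pow_le hr1 hrD U hw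
  have h4 := coeff_sum_pow P (n := n) (m := m) le_rfl hn2 hr1 U hw hrD
  rw [hA, h4] at h3
  have h5 : (P ^ m).coeff (m * n) * ((m * n).choose (m * n - r) : ZMod p) * ∑ u ∈ U, u ^ r = 0 := by
    linear_combination -h3
  have h6 : (P ^ m).coeff (m * n) ≠ 0 := by
    rw [coeff_pow_mul_natDegree]
    exact pow_ne_zero _ (leadingCoeff_ne_zero.2 hne0)
  have h7 : ((m * n).choose (m * n - r) : ZMod p) ≠ 0 := by
    rw [Ne, ZMod.natCast_eq_zero_iff]
    intro h8
    have h9 : p ∣ (m * n).factorial := by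
      rw [← Nat.choose_mul_factorial_mul_factorial (Nat.sub_le (m * n) r), mul_assoc]
      exact Dvd.dvd.mul_right h8 _
    have := (Nat.Prime.dvd_factorial hp).1 h9
    omega
  rcases mul_eq_zero.1 h5 with h8 | h8
  · rcases mul_eq_zero.1 h8 with h9 | h9
    · exact h6 h9
    · exact h7 h9
  · exact hrw h8

end Pool.Agent.V7H4.PD
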