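import Pool.Agent.V7H4.PD.Gc

/-!
# The multipliers of a signed affine group with a character
-/

set_option autoImplicit false

open scoped Classical commutatorElement

namespace Pool.Agent.V7H4.PD

open Pool.Agent.Q11.CZ Pool.Agent.N770.CP Pool.Agent.V7H4.CT

variable {p : ℕ} [Fact p.Prime] {G : Type} [Group G] {X : Type} [MulAction G X] {c : G}
  {l : X → ZMod p} {t : G} {κ : X → ℤ}

lemma Coord.tinv (h : Coord c l t) (x : X) : l (t⁻¹ • x) = l x - 1 := by
  have := h.tr (t⁻¹ • x)
  rw [smul_inv_smul] at this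
  rw [this]
  ring

lemma zpow_l {z : G} {v : ZMod p} (hz : ∀ x, l (z • x) = l x + v) (j : ℕ)
    (x : X) : l (z ^ j • x) = l x + j * v := by
  induction j generalizing x with
  | zero => simp
  | succ j ih =>
    rw [pow_succ, mul_smul, ih, hz]
    push_cast
    ring

/-- the differences at an element which preserves the character -/
lemma Kap.D_pos [Fintype G] (hk : Kap G c κ) {g : G} (x y : X) (hxy : κ x = κ y)
    (hg : eps κ x g = 1) : D c x y g = cnt x y g := by
  have h1 : cnt x (c • y) g = 0 := by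
    unfold cnt
    rw [Finset.card_eq_zero, Finset.filter_eq_empty_iff]
    intro k _ h2
    have h3 : κ ((k⁻¹ * g * k) • x) = κ x := by
      rw [hk.smul x x, hk.eps_conj, hg, one_mul]
    rw [h2, hk.neg, ← hxy] at h3
    have h4 := hk.one x
    have h5 : κ x = 0 := by linarith
    rw [h5] at h4
    norm_num at h4
  unfold D
  rw [h1]
  simp

/-- **All multipliers occur.** -/
theorem exists_mult [Fintype G] (h : Coord c l t) (hk : Kap G c κ) (x₀ : X) {g₀ : G}
    {u b : ZMod p} (hg₀ : ∀ x, l (g₀ • x) = u * l x + b) (hu : u ≠ 1) (s : ℕ)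
    (hT : ∀ x y : X, Twist (fun g : G => ((D c x y g + s * D c y x g : ℤ) : ℚ)))
    {w : ZMod p} (hw : w ≠ 0) :
    ∃ k : G, (∀ x y : X, l (k • y) - l (k • x) = w * (l y - l x)) ∨
      (s ≠ 0 ∧ ∀ x y : X, l (k • y) - l (k • x) = -w * (l y - l x)) := by
  have hp : p.Prime := Fact.out
  set z : G := ⁅g₀, t⁆ with hz
  have hzc : z ∈ commutator G :=
    Subgroup.commutator_mem_commutator (Subgroup.mem_top _) (Subgroup.mem_top _)
  set v := u - 1 with hv
  have hv0 : v ≠ 0 := sub_ne_zero.2 hu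
  have hzl : ∀ x, l (z • x) = l x + v := by
    intro x
    set q := g₀⁻¹ • t⁻¹ • x with hq
    have e1 : z • x = g₀ • t • q := by
      rw [hz, hq, commutatorElement_def, mul_smul, mul_smul, mul_smul]
    have e2 : l (g₀ • q) = l x - 1 := by
      rw [hq, smul_inv_smul, h.tinv]
    rw [hg₀] at e2
    rw [e1, hg₀, h.tr, hv]
    linear_combination e2
  -- a prime number in the class of `w`
  obtain ⟨j, hj1, hj2, hj3⟩ := Nat.forall_exists_prime_gt_and_eq_mod
    ((Ne.isUnit hw) : IsUnit w) (Nat.card G)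
  have hjc : j.Coprime (Nat.card G) :=
    (Nat.coprime_of_lt_prime (Nat.card_pos.ne') hj1 hj2)
  set y := z • x₀ with hy
  have hez : eps κ x₀ z = 1 := hk.eps_commutator x₀ hzc
  have hezj : eps κ x₀ (z ^ j) = 1 := by rw [hk.eps_pow, hez, one_pow]
  have hκ : κ x₀ = κ y := by
    rw [hy, hk.smul x₀ x₀, hez, one_mul]
  have e1 : D c x₀ y z = cnt x₀ y z := hk.D_pos x₀ y hκ hez
  have e2 : D c y x₀ z = cnt y x₀ z := hk.D_pos y x₀ hκ.symm (by rw [hk.eps_eq y x₀, hez])
  have e3 : D c x₀ y (z ^ j) = cnt x₀ y (z ^ j) := hk.D_pos x₀ y hκ hezj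
  have e4 : D c y x₀ (z ^ j) = cnt y x₀ (z ^ j) :=
    hk.D_pos y x₀ hκ.symm (by rw [hk.eps_eq y x₀, hezj])
  have hpos : 0 < cnt x₀ y z := by
    unfold cnt
    rw [Finset.card_pos]
    refine ⟨1, ?_⟩
    simp [hy]
  have h1 := hT x₀ y j hjc 1 z hzc
  simp only [one_mul, one_pow, sub_self] at h1
  have h2 : D c x₀ y (z ^ j) + s * D c y x₀ (z ^ j) = D c x₀ y z + s * D c y x₀ z := by
    have := sub_eq_zero.1 h1
    exact_mod_cast this
  rw [e1, e2, e3, e4] at h2
  have h3 : 0 < cnt x₀ y (z ^ j) + s * cnt y x₀ (z ^ j) := by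
    have h4 : cnt x₀ y (z ^ j) + s * cnt y x₀ (z ^ j) = cnt x₀ y z + s * cnt y x₀ z := by
      exact_mod_cast h2
    omega
  have hly : l y = l x₀ + v := hzl x₀
  rcases Nat.eq_zero_or_pos (cnt x₀ y (z ^ j)) with h5 | h5
  · rw [h5, zero_add] at h3
    have hs : s ≠ 0 := by
      rintro rfl
      simp at h3
    have h6 : 0 < cnt y x₀ (z ^ j) := Nat.pos_of_mul_pos_left h3
    unfold cnt at h6
    rw [Finset.card_pos] at h6
    obtain ⟨k, hk'⟩ := h6
    have h7 : (k⁻¹ * z ^ j * k) • y = x₀ := (Finset.mem_filter.1 hk').2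
    refine ⟨k, Or.inr ⟨hs, ?_⟩⟩
    obtain ⟨a, b', hab⟩ := h.aff k
    rw [mul_smul, mul_smul, inv_smul_eq_iff] at h7
    have h8 := congrArg l h7
    rw [zpow_l hzl, hab, hab, hly, hj3] at h8
    have h9 : (a + w) * v = 0 := by linear_combination h8
    have h10 : a = -w := by
      rcases mul_eq_zero.1 h9 with h11 | h11
      · linear_combination h11
      · exact absurd h11 hv0
    intro x' y'
    rw [hab, hab, h10]
    ring
  · have h5' : 0 < cnt x₀ y (z ^ j) := h5
    unfold cnt at h5'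
    rw [Finset.card_pos] at h5'
    obtain ⟨k, hk'⟩ := h5'
    have h7 : (k⁻¹ * z ^ j * k) • x₀ = y := (Finset.mem_filter.1 hk').2
    refine ⟨k, Or.inl ?_⟩
    obtain ⟨a, b', hab⟩ := h.aff k
    rw [mul_smul, mul_smul, inv_smul_eq_iff] at h7
    have h8 := congrArg l h7
    rw [zpow_l hzl, hab, hab, hly, hj3] at h8
    have h9 : (w - a) * v = 0 := by linear_combination h8
    have h10 : a = w := by
      rcases mul_eq_zero.1 h9 with h11 | h11
      · linear_combination -h11
      · exact absurd h11 hv0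
    intro x' y'
    rw [hab, hab, h10]
    ring

end Pool.Agent.V7H4.PD
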