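import Pool.Agent.V7H4.CT.Gg
import Pool.Agent.V7H4.PD.Gd

/-!
# CM fields of degree `2 p`
-/

set_option autoImplicit false

open scoped Classical
open NumberField

namespace Pool.Agent.V7H4.PD

open Pool.Agent.Results.MP_a2beea_nt.AveragedAndAbelian Pool.Agent.N770.CP Pool.Agent.V7H4.CT

variable {E K : Type} [Field E] [NumberField E] [Field K] [NumberField K]

/-- A character on the embeddings comes from an imaginary quadratic subfield. -/
theorem exists_imag [IsGalois ℚ K] [IsCMField K] (ψ : E →ₐ[ℚ] K) {κ : (E →ₐ[ℚ] K) → ℤ}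
    (hk : Kap (K ≃ₐ[ℚ] K) (conjugation K) κ) : ∃ (d : ℕ) (t : E), 0 < d ∧ t ^ 2 = -(d : E) := by
  set H : Subgroup (K ≃ₐ[ℚ] K) := hk.ker ψ with hH
  set F0 : IntermediateField ℚ K := IntermediateField.fixedField H with hF0
  have hcH : conjugation K ∉ H := by
    rw [hH, hk.mem_ker, hk.eps_c]
    norm_num
  have hle : F0 ≤ ψ.fieldRange := by
    rw [← IsGalois.fixedField_fixingSubgroup ψ.fieldRange, hF0]
    refine IntermediateField.fixedField_antitone ?_
    intro g hg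
    rw [IntermediateField.mem_fixingSubgroup_iff] at hg
    have h1 : g • ψ = ψ := by
      apply AlgHom.ext
      intro t
      exact hg _ ⟨t, rfl⟩
    rw [hH, hk.mem_ker]
    unfold eps
    rw [h1]
    exact hk.one ψ
  obtain ⟨β, hβ1, hβ2⟩ : ∃ β ∈ F0, conjugation K β ≠ β := by
    by_contra hcon
    push Not at hcon
    apply hcH
    rw [← IntermediateField.fixingSubgroup_fixedField H, IntermediateField.mem_fixingSubgroup_iff]
    exact hcon
  set c := conjugation K with hc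
  have hcc : c * c = 1 := Pool.Agent.Q11.CZ.conj_mul_self
  have hcc' : ∀ x : K, c (c x) = x := fun x => by
    have := congrArg (fun g : K ≃ₐ[ℚ] K => g x) hcc
    exact this
  have hcomm : ∀ (g : K ≃ₐ[ℚ] K) (x : K), c (g x) = g (c x) := by
    intro g x
    have h1 : c * g = g * c := Pool.Agent.Q11.CZ.conj_comm g
    exact congrArg (fun g : K ≃ₐ[ℚ] K => g x) h1
  have hfixβ : ∀ g ∈ H, g β = β := by
    intro g hg
    exact (IntermediateField.mem_fixedField_iff H β).1 hβ1 g hg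
  set t := β - c β with ht
  have ht0 : t ≠ 0 := sub_ne_zero.2 (fun h => hβ2 h.symm)
  have hct : c t = -t := by
    rw [ht, map_sub, hcc']
    ring
  have hgt : ∀ g ∈ H, g t = t := by
    intro g hg
    rw [ht, map_sub, ← hcomm, hfixβ g hg]
  have hsq : ∀ g : K ≃ₐ[ℚ] K, g (t ^ 2) = t ^ 2 := by
    intro g
    by_cases hg : g ∈ H
    · rw [map_pow, hgt g hg]
    · have h1 : c * g ∈ H := by
        rw [hH, hk.mem_ker] at hg ⊢
        rw [hk.eps_mul, hk.eps_c]
        rcases pm_one (hk.eps_sq ψ g) with h2 | h2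
        · exact absurd h2 hg
        · rw [h2]
          norm_num
      have h2 : c (g t) = t := hgt _ h1
      have h3 : g t = -t := by
        rw [← hcc' (g t), h2, hct]
      rw [map_pow, h3]
      ring
  obtain ⟨q, hq⟩ : ∃ q : ℚ, algebraMap ℚ K q = t ^ 2 := by
    have h1 := (IsGalois.mem_range_algebraMap_iff_fixed (F := ℚ) (E := K) (t ^ 2)).2 hsq
    exact h1
  have hqneg : q < 0 := by
    obtain ⟨φ⟩ : Nonempty (K →+* ℂ) := inferInstance
    have h1 : φ (c t) = starRingEnd ℂ (φ t) := Pool.Agent.Q11.CZ.emb_conj φ t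
    rw [hct, map_neg] at h1
    have h2 : (φ t).re = 0 := by
      have := congrArg Complex.re h1
      rw [Complex.neg_re, Complex.conj_re] at this
      linarith
    have h3 : (φ t) ^ 2 = (q : ℂ) := by
      rw [← map_pow, ← hq]
      simp
    have h4 := congrArg Complex.re h3
    rw [pow_two, Complex.mul_re, h2, Complex.ratCast_re] at h4
    have h5 : (φ t).im ≠ 0 := by
      intro h
      apply ht0
      apply φ.injective
      rw [map_zero]
      exact Complex.ext h2 h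
    have h6 : 0 < (φ t).im * (φ t).im := mul_self_pos.2 h5
    have h7 : (q : ℝ) < 0 := by
      rw [← h4]
      linarith
    exact_mod_cast h7
  -- scaling
  have hbt : (q.den : K) * t ∈ ψ.fieldRange := by
    apply hle
    refine F0.mul_mem (natCast_mem F0 q.den) ?_
    rw [hF0, IntermediateField.mem_fixedField_iff]
    exact hgt
  obtain ⟨s, hs⟩ := hbt
  have hs' : ψ s = (q.den : K) * t := hs
  refine ⟨(-q.num).toNat * q.den, s, ?_, ?_⟩
  · have h1 : 0 < -q.num := by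
      have := Rat.num_neg.2 hqneg
      omega
    have h2 : 0 < (-q.num).toNat := by omega
    exact Nat.mul_pos h2 q.den_pos
  · refine (ψ : E →+* K).injective ?_
    change ψ (s ^ 2) = ψ (-(((-q.num).toNat * q.den : ℕ) : E))
    rw [map_pow, hs', map_neg, map_natCast, mul_pow, ← hq]
    have h1 : (q.den : ℚ) ^ 2 * q = -(((-q.num).toNat * q.den : ℕ) : ℚ) := by
      have h2 : (((-q.num).toNat : ℤ)) = -q.num := by
        have := Rat.num_neg.2 hqneg
        omega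
      have h3 : (((-q.num).toNat : ℚ)) = -q.num := by exact_mod_cast h2
      have h4 : (q.den : ℚ) * q = q.num := by
        rw [mul_comm]
        exact Rat.mul_den_eq_num q
      push_cast
      rw [h3]
      linear_combination (q.den : ℚ) * h4
    have h5 := congrArg (algebraMap ℚ K) h1
    rw [map_mul, map_pow, map_natCast, map_neg, map_natCast] at h5
    exact h5

variable [IsGalois ℚ K] [IsCMField E] [IsCMField K]

/-- the Galois group of `K` acts transitively on the pairs of embeddings of `F` into `K` -/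
def Homg (F K : Type) [Field F] [NumberField F] [Field K] [NumberField K] : Prop :=
  ∀ σ τ σ' τ' : F →ₐ[ℚ] K, σ ≠ τ → σ' ≠ τ' → ∃ g : K ≃ₐ[ℚ] K,
    ((g : K →ₐ[ℚ] K).comp σ = σ' ∧ (g : K →ₐ[ℚ] K).comp τ = τ') ∨
      ((g : K →ₐ[ℚ] K).comp σ = τ' ∧ (g : K →ₐ[ℚ] K).comp τ = σ')

omit [IsGalois ℚ K] in
lemma homog_of (h : Homg (maximalRealSubfield E) K) : Homog (conjugation K) (E →ₐ[ℚ] K) := by
  intro x y x' y' h1 h2
  obtain ⟨g, ⟨h3, h4⟩ | ⟨h3, h4⟩⟩ := h (res x) (res y) (res x') (res y') ((nc_iff x y).1 h1)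
    ((nc_iff x' y').1 h2)
  · exact ⟨g, Or.inl ⟨eq_or_of_comp h3, eq_or_of_comp h4⟩⟩
  · exact ⟨g, Or.inr ⟨eq_or_of_comp h3, eq_or_of_comp h4⟩⟩

lemma kap_of (ψ₀ : E →ₐ[ℚ] K) {d : ℕ} (hd : 0 < d) {t : E} (ht : t ^ 2 = -(d : E)) :
    ∃ κ : (E →ₐ[ℚ] K) → ℤ, Kap (K ≃ₐ[ℚ] K) (conjugation K) κ := by
  obtain ⟨κ, k1, k2, k3⟩ := exists_kappa ψ₀ hd ht
  exact ⟨κ, k1, k2, k3⟩

/-- **Heights for homogeneous actions.** -/
theorem height_homg (hne : Nonempty (E →ₐ[ℚ] K)) (hh : Homg (maximalRealSubfield E) K)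
    {d : ℕ} (hd : 0 < d) {t : E} (ht : t ^ 2 = -(d : E))
    {Φ : Finset (E →ₐ[ℚ] K)} (hΦ : IsCMType Φ) : heightFn Φ ∈ avgSpan K := by
  obtain ⟨ψ₀⟩ := hne
  obtain ⟨κ, hk⟩ := kap_of ψ₀ hd ht
  have hF : Fintype (E →ₐ[ℚ] K) := Fintype.ofFinite _
  exact height_mem hΦ (fun x y g g' hgg =>
    hk.D_add Pool.Agent.Q11.CZ.conj_comm Pool.Agent.Q11.CZ.conj_mul_self conj_free
      (homog_of hh) x y g g' hgg)

/-- **Burnside's theorem** for the embeddings of the maximal real subfield. -/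
theorem exists_coord {p : ℕ} [Fact p.Prime] (hne : Nonempty (E →ₐ[ℚ] K))
    (hp : Module.finrank ℚ (maximalRealSubfield E) = p) (h2 : ¬ Two (maximalRealSubfield E) K) :
    ∃ (e : (maximalRealSubfield E →ₐ[ℚ] K) ≃ ZMod p) (t : K ≃ₐ[ℚ] K),
      Coord (conjugation K) (fun x : E →ₐ[ℚ] K => e (res x)) t ∧
        (∀ σ, e (t • σ) = e σ + 1) ∧
        ∀ g : K ≃ₐ[ℚ] K, ∃ a b : ZMod p, ∀ σ, e (g • σ) = a * e σ + b := by
  obtain ⟨ψ₀⟩ := hne
  have hF : Fintype (maximalRealSubfield E →ₐ[ℚ] K) := Fintype.ofFinite _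
  have hcard : Fintype.card (maximalRealSubfield E →ₐ[ℚ] K) = p := by
    rw [← Nat.card_eq_fintype_card, card_emb (res ψ₀), hp]
  have hpre : MulAction.IsPretransitive (K ≃ₐ[ℚ] K) (maximalRealSubfield E →ₐ[ℚ] K) := by
    refine ⟨fun σ σ' => ?_⟩
    obtain ⟨g, hg⟩ := Pool.Agent.Q11.CZ.exists_lift (K := K) σ σ'
    exact ⟨g, hg⟩
  obtain ⟨e, t, h3, h4⟩ := burnside (G := K ≃ₐ[ℚ] K) hcard h2
  refine ⟨e, t, ⟨fun x y => ?_, fun x => ?_, fun g => ?_⟩, h3, h4⟩
  · rw [e.injective.eq_iff]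
    constructor
    · intro h
      exact eq_or_of_res h
    · rintro (h | h)
      · rw [h]
      · rw [h, res_conj]
  · exact h3 (res x)
  · obtain ⟨a, b, hab⟩ := h4 g
    exact ⟨a, b, fun x => hab (res x)⟩

/-- **CM fields of degree `2 p` without imaginary quadratic subfields.** -/
theorem a0_prime {p : ℕ} [Fact p.Prime] (hp2 : p ≠ 2)
    (hp : Module.finrank ℚ (maximalRealSubfield E) = p)
    (hno : ¬ ∃ (d : ℕ) (t : E), 0 < d ∧ t ^ 2 = -(d : E))
    {Φ : Finset (E →ₐ[ℚ] K)} (hΦ : IsCMType Φ) (ψ : E →ₐ[ℚ] K) : a0 ψ Φ ∈ avgSpan K := by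
  have hprime : p.Prime := Fact.out
  by_cases h2 : Two (maximalRealSubfield E) K
  · refine a0_main ⟨ψ⟩ h2 (Or.inl ?_) hΦ ψ
    rw [hp]
    exact hprime.odd_of_ne_two hp2
  obtain ⟨e, t, hco, _, _⟩ := exists_coord (K := K) ⟨ψ⟩ hp h2
  by_cases hN : ∀ s : K ≃ₐ[ℚ] K, (∀ x : E →ₐ[ℚ] K, e (res (s • x)) = e (res x)) →
      (∀ x : E →ₐ[ℚ] K, s • x = x) ∨ (∀ x : E →ₐ[ℚ] K, s • x = conjugation K • x)
  · exfalso
    obtain ⟨κ, k1, k2, k3⟩ := exists_kappa' hco Pool.Agent.Q11.CZ.conj_comm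
      Pool.Agent.Q11.CZ.conj_mul_self conj_free hp2 ψ hN
    exact hno (exists_imag ψ ⟨k1, k2, k3⟩)
  · push Not at hN
    obtain ⟨s, hs, ⟨x, hx⟩, ⟨y, hy⟩⟩ := hN
    have hy' : s • y = y := (hco.fix_or hs y).resolve_right hy
    have hx' : s • x = conjugation K • x := (hco.fix_or hs x).resolve_left hx
    refine a0_mem hΦ ψ (fun y' g g' hgg => ?_)
    refine D_zpowers_of Pool.Agent.Q11.CZ.conj_comm Pool.Agent.Q11.CZ.conj_mul_self
      (fun z w g g' hzw _ => ?_) ψ y' g g' hgg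
    have hzw' : e (res z) ≠ e (res w) := fun h => (nc_iff z w).1 hzw (e.injective h)
    exact (D_zero hco Pool.Agent.Q11.CZ.conj_comm Pool.Agent.Q11.CZ.conj_mul_self conj_free hs
      hy' hx' z w hzw' g).trans (D_zero hco Pool.Agent.Q11.CZ.conj_comm
        Pool.Agent.Q11.CZ.conj_mul_self conj_free hs hy' hx' z w hzw' g').symm

omit [IsCMField E] in
/-- membership in the sum of the spaces gives the twisted invariance -/
lemma twist_of_mem {f : (K ≃ₐ[ℚ] K) → ℚ} (h : f ∈ avgSpan K ⊔ abSpan K) :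
    Pool.Agent.Q11.CZ.Twist f := (((result K).2.1 f).1 h).2

/-- The converse for a field which contains an imaginary quadratic field. -/
theorem mult_of {p : ℕ} [Fact p.Prime] (hne : Nonempty (E →ₐ[ℚ] K))
    (hp : Module.finrank ℚ (maximalRealSubfield E) = p) {d : ℕ} (hd : 0 < d) {t : E}
    (ht : t ^ 2 = -(d : E)) (hG : ¬ IsGalois ℚ (maximalRealSubfield E))
    (h2 : ¬ Two (maximalRealSubfield E) K) (s : ℕ)
    (hT : ∀ x y : E →ₐ[ℚ] K, Pool.Agent.Q11.CZ.Twist (fun g : K ≃ₐ[ℚ] K =>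
      ((D (conjugation K) x y g + s * D (conjugation K) y x g : ℤ) : ℚ)))
    (σ τ σ' τ' : maximalRealSubfield E →ₐ[ℚ] K) (h1 : σ ≠ τ) (h1' : σ' ≠ τ') :
    ∃ g : K ≃ₐ[ℚ] K,
      ((g : K →ₐ[ℚ] K).comp σ = σ' ∧ (g : K →ₐ[ℚ] K).comp τ = τ') ∨
        (s ≠ 0 ∧ (g : K →ₐ[ℚ] K).comp σ = τ' ∧ (g : K →ₐ[ℚ] K).comp τ = σ') := by
  have hprime : p.Prime := Fact.out
  obtain ⟨ψ₀⟩ := hne
  obtain ⟨κ, hk⟩ := kap_of ψ₀ hd ht
  obtain ⟨e, t, hco, hte, haff⟩ := exists_coord (K := K) ⟨ψ₀⟩ hp h2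
  -- an element with a multiplier different from `1`
  obtain ⟨g₀, hg1, hg2⟩ := exists_move (K := K) (by rw [hp]; exact hprime) hG h1
  obtain ⟨u, b, hub⟩ := haff g₀
  have hu : u ≠ 1 := by
    rintro rfl
    have e1 := hub σ
    have e2 := hub τ
    have e3 : g₀ • σ = σ := hg1
    rw [e3] at e1
    have e4 : b = 0 := by linear_combination -e1
    rw [e4] at e2
    apply hg2
    apply e.injective
    have e5 : e (g₀ • τ) = e τ := by
      rw [e2]
      ring
    exact e5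
  have e0 : e τ - e σ ≠ 0 := sub_ne_zero.2 (fun h => h1 (e.injective h).symm)
  have e0' : e τ' - e σ' ≠ 0 := sub_ne_zero.2 (fun h => h1' (e.injective h).symm)
  set w : ZMod p := (e τ' - e σ') / (e τ - e σ) with hw
  have hw0 : w ≠ 0 := div_ne_zero e0' e0
  have hwe : w * (e τ - e σ) = e τ' - e σ' := div_mul_cancel₀ _ e0
  obtain ⟨k, hk'⟩ := exists_mult hco hk ψ₀ (fun x => hub (res x)) hu s hT hw0
  obtain ⟨a, b', hab⟩ := haff k
  -- the multiplier of `k`
  have hstep : ∀ v : ZMod p, (∀ x y : E →ₐ[ℚ] K, e (res (k • y)) - e (res (k • x)) =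
      v * (e (res y) - e (res x))) → a = v := by
    intro v hv
    have h3 := hv ψ₀ (t • ψ₀)
    have h4 : e (res (k • t • ψ₀)) = a * e (res (t • ψ₀)) + b' := hab (res (t • ψ₀))
    have h5 : e (res (k • ψ₀)) = a * e (res ψ₀) + b' := hab (res ψ₀)
    have h6 : e (res (t • ψ₀)) = e (res ψ₀) + 1 := hte (res ψ₀)
    rw [h4, h5, h6] at h3
    linear_combination h3
  have htn : ∀ (n : ℕ) (σ), e (t ^ n • σ) = e σ + n := by
    intro n
    induction n with
    | zero => intro σ; simp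
    | succ n ih =>
      intro σ
      rw [pow_succ, mul_smul, ih, hte]
      push_cast
      ring
  have hfin : ∀ v : ZMod p, ∃ n : ℕ, ∀ σ, e (t ^ n • σ) = e σ + v := by
    intro v
    exact ⟨v.val, fun σ => by rw [htn, ZMod.natCast_zmod_val]⟩
  rcases hk' with hk' | ⟨hs, hk'⟩
  · have ha := hstep w hk'
    obtain ⟨n, hn⟩ := hfin (e σ' - e (k • σ))
    refine ⟨t ^ n * k, Or.inl ⟨?_, ?_⟩⟩
    · apply e.injective
      have h3 : e ((t ^ n * k) • σ) = e σ' := by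
        rw [mul_smul, hn]
        ring
      exact h3
    · apply e.injective
      have h3 : e ((t ^ n * k) • τ) = e τ' := by
        rw [mul_smul, hn, hab, hab, ha]
        linear_combination hwe
      exact h3
  · have ha := hstep (-w) hk'
    obtain ⟨n, hn⟩ := hfin (e τ' - e (k • σ))
    refine ⟨t ^ n * k, Or.inr ⟨hs, ?_, ?_⟩⟩
    · apply e.injective
      have h3 : e ((t ^ n * k) • σ) = e τ' := by
        rw [mul_smul, hn]
        ring
      exact h3
    · apply e.injective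
      have h3 : e ((t ^ n * k) • τ) = e σ' := by
        rw [mul_smul, hn, hab, hab, ha]
        linear_combination -hwe
      exact h3

/-- **Necessity for the functions `a⁰`.** -/
theorem two_of_mem {p : ℕ} [Fact p.Prime] (hne : Nonempty (E →ₐ[ℚ] K))
    (hp : Module.finrank ℚ (maximalRealSubfield E) = p) {d : ℕ} (hd : 0 < d) {t : E}
    (ht : t ^ 2 = -(d : E)) (hG : ¬ IsGalois ℚ (maximalRealSubfield E))
    (hall : ∀ Φ : Finset (E →ₐ[ℚ] K), IsCMType Φ → ∀ ψ : E →ₐ[ℚ] K,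
      a0 ψ Φ ∈ avgSpan K ⊔ abSpan K) : Two (maximalRealSubfield E) K := by
  by_contra h2
  apply h2
  obtain ⟨ψ₀⟩ := hne
  obtain ⟨κ, hk⟩ := kap_of ψ₀ hd ht
  have hF : Fintype (E →ₐ[ℚ] K) := Fintype.ofFinite _
  intro σ τ σ' τ' h1 h1'
  obtain ⟨g, hg | ⟨hs, _⟩⟩ := mult_of (K := K) ⟨ψ₀⟩ hp hd ht hG h2 0 (fun x y => by
    have h3 := twist_D Pool.Agent.Q11.CZ.conj_mul_self conj_free (⟨hk.one, hk.neg⟩ : OddSign
      (conjugation K) κ) x (fun Φ hΦ => by
        have := twist_of_mem (hall Φ hΦ x)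
        rwa [a0_eq] at this) y
    have h4 : Pool.Agent.Q11.CZ.Twist (fun g : K ≃ₐ[ℚ] K =>
      ((D (conjugation K) x y g : ℤ) : ℚ)) := h3
    simpa using h4) σ τ σ' τ' h1 h1'
  · exact ⟨g, hg⟩
  · exact absurd rfl hs

/-- **Necessity for the heights.** -/
theorem homg_of_mem {p : ℕ} [Fact p.Prime] (hne : Nonempty (E →ₐ[ℚ] K))
    (hp : Module.finrank ℚ (maximalRealSubfield E) = p) {d : ℕ} (hd : 0 < d) {t : E}
    (ht : t ^ 2 = -(d : E)) (hG : ¬ IsGalois ℚ (maximalRealSubfield E))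
    (hall : ∀ Φ : Finset (E →ₐ[ℚ] K), IsCMType Φ → heightFn Φ ∈ avgSpan K ⊔ abSpan K) :
    Homg (maximalRealSubfield E) K := by
  by_cases h2 : Two (maximalRealSubfield E) K
  · intro σ τ σ' τ' h1 h1'
    obtain ⟨g, hg⟩ := h2 σ τ σ' τ' h1 h1'
    exact ⟨g, Or.inl hg⟩
  obtain ⟨ψ₀⟩ := hne
  obtain ⟨κ, hk⟩ := kap_of ψ₀ hd ht
  have hF : Fintype (E →ₐ[ℚ] K) := Fintype.ofFinite _
  intro σ τ σ' τ' h1 h1'
  obtain ⟨g, hg | ⟨_, hg⟩⟩ := mult_of (K := K) ⟨ψ₀⟩ hp hd ht hG h2 1 (fun x y => by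
    have h3 := twist_D_add Pool.Agent.Q11.CZ.conj_comm Pool.Agent.Q11.CZ.conj_mul_self conj_free
      (⟨hk.one, hk.neg⟩ : OddSign (conjugation K) κ) (fun Φ hΦ => by
        have := twist_of_mem (hall Φ hΦ)
        rwa [heightFn_eq] at this) x y
    have h4 : Pool.Agent.Q11.CZ.Twist (fun g : K ≃ₐ[ℚ] K =>
      ((D (conjugation K) x y g + D (conjugation K) y x g : ℤ) : ℚ)) := h3
    simpa using h4) σ τ σ' τ' h1 h1'
  · exact ⟨g, Or.inl hg⟩
  · exact ⟨g, Or.inr hg⟩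

end Pool.Agent.V7H4.PD
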