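import Pool.Agent.V7H4.CT.Dd
import Pool.Agent.V7H4.PD.Bg

/-!
# Signed affine groups of prime degree

`G` is a finite group with a central involution `c`, acting on `X`; the orbits of `c` on `X` are
numbered by the elements of `ZMod p`, and `G` acts on these numbers by affine maps.
-/

set_option autoImplicit false

open scoped Classical

namespace Pool.Agent.V7H4.PD

open Pool.Agent.Q11.CZ Pool.Agent.N770.CP Pool.Agent.V7H4.CT

variable {p : ℕ} [Fact p.Prime] {G : Type} [Group G] {X : Type} [MulAction G X] {c : G}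

/-- the numbers of the orbits of `c` -/
structure Coord (c : G) (l : X → ZMod p) (t : G) : Prop where
  eq : ∀ x y : X, l x = l y ↔ y = x ∨ y = c • x
  tr : ∀ x : X, l (t • x) = l x + 1
  aff : ∀ g : G, ∃ a b : ZMod p, ∀ x : X, l (g • x) = a * l x + b

variable {l : X → ZMod p} {t : G}

lemma Coord.c_smul (h : Coord c l t) (x : X) : l (c • x) = l x := ((h.eq x (c • x)).2 (Or.inr rfl)).symm

lemma Coord.tpow (h : Coord c l t) (k : ℕ) (x : X) : l (t ^ k • x) = l x + k := by
  induction k generalizing x with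
  | zero => simp
  | succ k ih =>
    rw [pow_succ, mul_smul, ih, h.tr]
    push_cast
    ring

lemma Coord.exists_pow (h : Coord c l t) (x : X) (v : ZMod p) : ∃ k : ℕ, l (t ^ k • x) = v := by
  refine ⟨(v - l x).val, ?_⟩
  rw [h.tpow, ZMod.natCast_zmod_val]
  ring

lemma Coord.fix_or (h : Coord c l t) {s : G} (hs : ∀ x, l (s • x) = l x) (x : X) :
    s • x = x ∨ s • x = c • x := (h.eq x (s • x)).1 (hs x).symm

lemma Coord.conj (h : Coord c l t) (hc : ∀ g, c * g = g * c) {s : G} (hs : ∀ x, l (s • x) = l x)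
    (k : G) (x : X) : l ((k⁻¹ * s * k) • x) = l x := by
  have h1 : (k⁻¹ * s * k) • x = k⁻¹ • (s • (k • x)) := by rw [mul_smul, mul_smul]
  rw [h1]
  rcases h.fix_or hs (k • x) with h2 | h2
  · rw [h2, inv_smul_smul]
  · rw [h2, c_smul_comm hc, inv_smul_smul, h.c_smul]

/-- all differences vanish if there is a nontrivial change of signs -/
theorem D_zero [Fintype G] (h : Coord c l t) (hc : ∀ g, c * g = g * c) (hc2 : c * c = 1)
    (hfree : ∀ x : X, c • x ≠ x) {s : G} (hs : ∀ x, l (s • x) = l x) {x₁ y₁ : X}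
    (h1 : s • x₁ = x₁) (h2 : s • y₁ = c • y₁) (x y : X) (hxy : l x ≠ l y) (g : G) :
    D c x y g = 0 := by
  have hp : p.Prime := Fact.out
  by_contra hD
  set δ := l y - l x with hδ
  have hδ0 : δ ≠ 0 := by
    rw [hδ, Ne, sub_eq_zero]
    exact fun h => hxy h.symm
  -- the changes of signs agree at `x` and `y`
  have claim1 : ∀ s : G, (∀ x, l (s • x) = l x) → (s • x = x ↔ s • y = y) := by
    intro s hs
    constructor
    · intro h3
      rcases h.fix_or hs y with h4 | h4
      · exact h4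
      · exfalso
        apply hD
        have h5 := D_smul hc s x y g
        rw [h3, h4, D_right hc2] at h5
        omega
    · intro h3
      rcases h.fix_or hs x with h4 | h4
      · exact h4
      · exfalso
        apply hD
        have h5 := D_smul hc s x y g
        rw [h3, h4, D_left hc hc2] at h5
        omega
  have claim2 : ∀ k : ℕ, (s • t ^ k • x = t ^ k • x ↔ s • t ^ k • y = t ^ k • y) := by
    intro k
    have h3 := claim1 ((t ^ k)⁻¹ * s * t ^ k) (fun x => h.conj hc hs (t ^ k) x)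
    have h4 : ∀ z : X, ((t ^ k)⁻¹ * s * t ^ k) • z = z ↔ s • t ^ k • z = t ^ k • z := by
      intro z
      rw [mul_smul, mul_smul, inv_smul_eq_iff]
    rwa [h4, h4] at h3
  have claim3 : ∀ z w : X, l z = l w → (s • z = z ↔ s • w = w) := by
    intro z w hzw
    rcases (h.eq z w).1 hzw with h3 | h3
    · rw [h3]
    · rw [h3, ← c_smul_comm hc, smul_left_cancel_iff]
  have claim4 : ∀ z w : X, l w = l z + δ → (s • z = z ↔ s • w = w) := by
    intro z w hzw
    obtain ⟨k, hk⟩ := h.exists_pow x (l z)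
    rw [claim3 z (t ^ k • x) hk.symm, claim2 k]
    refine claim3 _ _ ?_
    rw [h.tpow, hzw, ← hk, h.tpow, hδ]
    ring
  have claim5 : ∀ (n : ℕ) (z w : X), l w = l z + n * δ → (s • z = z ↔ s • w = w) := by
    intro n
    induction n with
    | zero =>
      intro z w hzw
      exact claim3 z w (by rw [hzw]; simp)
    | succ n ih =>
      intro z w hzw
      obtain ⟨k, hk⟩ := h.exists_pow z (l z + n * δ)
      rw [ih z (t ^ k • z) hk]
      refine claim4 _ _ ?_
      rw [hk, hzw]
      push_cast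
      ring
  have h3 : s • x₁ = x₁ ↔ s • y₁ = y₁ := by
    refine claim5 ((l y₁ - l x₁) / δ).val x₁ y₁ ?_
    rw [ZMod.natCast_zmod_val, div_mul_cancel₀ _ hδ0]
    ring
  have h4 := h3.1 h1
  rw [h2] at h4
  exact hfree y₁ h4

/-- without nontrivial changes of signs there is a character on the points -/
theorem exists_kappa' (h : Coord c l t) (hc : ∀ g, c * g = g * c) (hc2 : c * c = 1)
    (hfree : ∀ x : X, c • x ≠ x) (hp2 : p ≠ 2) (x₀ : X)
    (hN : ∀ s : G, (∀ x, l (s • x) = l x) → (∀ x : X, s • x = x) ∨ (∀ x : X, s • x = c • x)) :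
    ∃ κ : X → ℤ, (∀ x, κ x * κ x = 1) ∧ (∀ x, κ (c • x) = -κ x) ∧
      ∀ (k : G) (x y : X), κ (k • x) * κ (k • y) = κ x * κ y := by
  have hp : p.Prime := Fact.out
  have hodd : Odd p := hp.odd_of_ne_two hp2
  have hcc : ∀ x : X, c • c • x = x := fun x => by rw [← mul_smul, hc2, one_smul]
  have hcpow : ∀ k : ℕ, ∀ x : X, c ^ k • x = if Even k then x else c • x := by
    intro k
    induction k with
    | zero => intro x; simp
    | succ k ih =>
      intro x
      rw [pow_succ, mul_smul, ih]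
      by_cases hk : Even k
      · rw [if_pos hk, if_neg (by rw [Nat.not_even_iff_odd]; exact hk.add_one)]
      · rw [if_neg hk, if_pos (by rw [Nat.not_even_iff_odd] at hk; exact hk.add_one), hcc]
  -- a translation of order `p`
  obtain ⟨τ, hτ1, hτ2⟩ : ∃ τ : G, (∀ x, l (τ • x) = l x + 1) ∧ ∀ x : X, τ ^ p • x = x := by
    rcases hN (t ^ p) (fun x => by rw [h.tpow]; simp) with h1 | h1
    · exact ⟨t, h.tr, h1⟩
    · refine ⟨c * t, fun x => ?_, fun x => ?_⟩
      · rw [mul_smul, h.c_smul, h.tr]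
      · rw [(show Commute c t from hc t).mul_pow, mul_smul, h1, hcpow,
          if_neg (by rw [Nat.not_even_iff_odd]; exact hodd), hcc]
  have hτk : ∀ (k : ℕ) (x : X), l (τ ^ k • x) = l x + k := by
    intro k
    induction k with
    | zero => intro x; simp
    | succ k ih =>
      intro x
      rw [pow_succ, mul_smul, ih, hτ1]
      push_cast
      ring
  have hmod : ∀ (j k : ℕ), (j : ZMod p) = k → ∀ x : X, τ ^ j • x = τ ^ k • x := by
    have aux : ∀ (k : ℕ) (x : X), τ ^ k • x = τ ^ (k % p) • x := by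
      intro k x
      have h2 : ∀ m : ℕ, ∀ x : X, τ ^ (p * m) • x = x := by
        intro m
        induction m with
        | zero => intro x; simp
        | succ m ih =>
          intro x
          rw [mul_add, pow_add, mul_smul, mul_one, hτ2, ih]
      conv_lhs => rw [← Nat.div_add_mod k p, pow_add, mul_smul]
      rw [h2]
    intro j k hjk x
    rw [aux j, aux k, (ZMod.natCast_eq_natCast_iff' j k p).1 hjk]
  -- the orbit of `x₀`
  have hone : ∀ x : X, (∃ k : ℕ, x = τ ^ k • x₀) ∨ ∃ k : ℕ, x = c • τ ^ k • x₀ := by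
    intro x
    have h1 : l (τ ^ (l x - l x₀).val • x₀) = l x := by
      rw [hτk, ZMod.natCast_zmod_val]
      ring
    rcases (h.eq _ _).1 h1 with h2 | h2
    · exact Or.inl ⟨_, h2⟩
    · exact Or.inr ⟨_, h2⟩
  have hnot : ∀ j k : ℕ, τ ^ j • x₀ ≠ c • τ ^ k • x₀ := by
    intro j k hjk
    have h1 : (j : ZMod p) = k := by
      have h2 : l (τ ^ j • x₀) = l (c • τ ^ k • x₀) := by rw [hjk]
      rw [h.c_smul, hτk, hτk] at h2
      exact add_left_cancel h2
    rw [hmod j k h1] at hjk
    exact hfree _ hjk.symm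
  set κ : X → ℤ := fun x => if ∃ k : ℕ, x = τ ^ k • x₀ then 1 else -1 with hκ
  have hpm : ∀ x, κ x * κ x = 1 := by
    intro x
    simp only [hκ]
    split_ifs <;> norm_num
  have hpos : ∀ k : ℕ, κ (τ ^ k • x₀) = 1 := fun k => if_pos ⟨k, rfl⟩
  have hneg : ∀ k : ℕ, κ (c • τ ^ k • x₀) = -1 := fun k =>
    if_neg (fun ⟨j, hj⟩ => hnot j k hj.symm)
  have hκc : ∀ x, κ (c • x) = -κ x := by
    intro x
    rcases hone x with ⟨k, rfl⟩ | ⟨k, rfl⟩
    · rw [hneg, hpos]
    · rw [hcc, hpos, hneg]
      norm_num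
  have hκτ : ∀ (k : ℕ) (x : X), κ (τ ^ k • x) = κ x := by
    intro k x
    rcases hone x with ⟨j, rfl⟩ | ⟨j, rfl⟩
    · rw [← mul_smul, ← pow_add, hpos, hpos]
    · rw [← c_smul_comm hc, hκc, hκc, ← mul_smul, ← pow_add, hpos, hpos]
  refine ⟨κ, hpm, hκc, ?_⟩
  intro g
  -- `g` normalises the translations
  obtain ⟨a, b, hab⟩ := h.aff g
  have hgp : ∀ (m : ℕ) (x : X), (g * τ * g⁻¹) ^ m • x = g • τ ^ m • g⁻¹ • x := by
    intro m x
    rw [conj_pow, mul_smul, mul_smul]
  have hconj : ∀ x : X, (g * τ * g⁻¹) • x = τ ^ a.val • x := by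
    set s := (g * τ * g⁻¹) * (τ ^ a.val)⁻¹ with hs
    have hsl : ∀ x, l (s • x) = l x := by
      intro x
      set w := g⁻¹ • (τ ^ a.val)⁻¹ • x with hw
      have e1 : s • x = g • τ • w := by
        rw [hs, hw, mul_smul, mul_smul, mul_smul]
      have e2 : x = τ ^ a.val • g • w := by
        rw [hw, smul_inv_smul, smul_inv_smul]
      rw [e1, hab, hτ1]
      conv_rhs => rw [e2]
      rw [hτk, hab, ZMod.natCast_zmod_val]
      ring
    have hgs : g * τ * g⁻¹ = s * τ ^ a.val := by
      rw [hs, inv_mul_cancel_right]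
    rcases hN s hsl with h1 | h1
    · intro x
      rw [hgs, mul_smul, h1]
    · exfalso
      have h2 : ∀ (m : ℕ) (x : X), (g * τ * g⁻¹) ^ m • x = c ^ m • (τ ^ (a.val * m)) • x := by
        intro m
        induction m with
        | zero => intro x; simp
        | succ m ih =>
          intro x
          have e1 : (g * τ * g⁻¹) • x = c • τ ^ a.val • x := by
            rw [hgs, mul_smul, h1]
          have e2 : c ^ (m + 1) • (τ ^ (a.val * (m + 1))) • x =
              c ^ m • c • τ ^ (a.val * m) • τ ^ a.val • x := by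
            rw [pow_succ c, mul_smul, mul_add, mul_one, pow_add, mul_smul (τ ^ (a.val * m))]
          rw [pow_succ, mul_smul, e1, ih, e2, c_smul_comm hc (τ ^ (a.val * m)) (τ ^ a.val • x)]
      have h3 := h2 p x₀
      rw [hgp p, hτ2, smul_inv_smul, hcpow, if_neg (by rw [Nat.not_even_iff_odd]; exact hodd)] at h3
      have h4 : τ ^ (a.val * p) • x₀ = x₀ := by
        rw [hmod (a.val * p) 0 (by simp)]
        simp
      rw [h4] at h3
      exact hfree x₀ h3.symm
  have hgτ : ∀ (k : ℕ), g • τ ^ k • x₀ = τ ^ (a.val * k) • g • x₀ := by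
    intro k
    have h1 := hgp k (g • x₀)
    rw [inv_smul_smul] at h1
    rw [← h1]
    clear h1
    induction k with
    | zero => simp
    | succ k ih =>
      rw [pow_succ', mul_smul, ih, hconj, ← mul_smul, ← pow_add]
      congr 2
      ring
  have hgx : ∀ x, κ (g • x) = κ x * κ (g • x₀) := by
    intro x
    rcases hone x with ⟨k, rfl⟩ | ⟨k, rfl⟩
    · rw [hgτ, hκτ, hpos, one_mul]
    · rw [← c_smul_comm hc, hκc, hgτ, hκτ, hneg]
      ring
  intro x y
  rw [hgx x, hgx y]
  linear_combination (κ x * κ y) * hpm (g • x₀)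

end Pool.Agent.V7H4.PD
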