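import Pool.Agent.V7H4.CT.Dd

/-!
# Actions with a character on the points: homogeneous actions
-/

set_option autoImplicit false

open scoped Classical

namespace Pool.Agent.V7H4.PD

open Pool.Agent.Q11.CZ Pool.Agent.N770.CP Pool.Agent.V7H4.CT

variable {G : Type} [Group G] {X : Type} [MulAction G X] {c : G}

/-- a character on the points -/
structure Kap (G : Type) [Group G] {X : Type} [MulAction G X] (c : G) (κ : X → ℤ) : Prop where
  one : ∀ x, κ x * κ x = 1
  neg : ∀ x, κ (c • x) = -κ x
  mul : ∀ (k : G) (x y : X), κ (k • x) * κ (k • y) = κ x * κ y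

variable {κ : X → ℤ}

/-- the action of an element on the character -/
def eps (κ : X → ℤ) (x : X) (g : G) : ℤ := κ (g • x) * κ x

lemma Kap.eps_eq (h : Kap G c κ) (x y : X) (g : G) : eps κ x g = eps κ y g := by
  unfold eps
  have h1 := h.mul g x y
  have h2 := h.one x
  have h3 := h.one (g • y)
  calc κ (g • x) * κ x = (κ (g • x) * κ x) * (κ (g • y) * κ (g • y)) := by rw [h3, mul_one]
    _ = (κ (g • x) * κ (g • y)) * (κ x * κ (g • y)) := by ring
    _ = (κ x * κ y) * (κ x * κ (g • y)) := by rw [h1]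
    _ = (κ x * κ x) * (κ (g • y) * κ y) := by ring
    _ = κ (g • y) * κ y := by rw [h2, one_mul]

lemma Kap.smul (h : Kap G c κ) (x y : X) (g : G) : κ (g • x) = eps κ y g * κ x := by
  rw [h.eps_eq y x g]
  unfold eps
  rw [mul_assoc, h.one x, mul_one]

lemma Kap.eps_mul (h : Kap G c κ) (x : X) (g k : G) :
    eps κ x (g * k) = eps κ x g * eps κ x k := by
  rw [h.eps_eq x (k • x) g]
  unfold eps
  rw [mul_smul]
  have h1 := h.one (k • x)
  calc κ (g • k • x) * κ x = (κ (g • k • x) * κ x) * (κ (k • x) * κ (k • x)) := by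
        rw [h1, mul_one]
    _ = κ (g • k • x) * κ (k • x) * (κ (k • x) * κ x) := by ring

lemma Kap.eps_one (h : Kap G c κ) (x : X) : eps κ x (1 : G) = 1 := by
  unfold eps
  rw [one_smul]
  exact h.one x

lemma Kap.eps_sq (h : Kap G c κ) (x : X) (g : G) : eps κ x g * eps κ x g = 1 := by
  unfold eps
  have h1 := h.one x
  have h2 := h.one (g • x)
  calc κ (g • x) * κ x * (κ (g • x) * κ x) = (κ (g • x) * κ (g • x)) * (κ x * κ x) := by ring
    _ = 1 := by rw [h1, h2, one_mul]

lemma Kap.eps_inv (h : Kap G c κ) (x : X) (g : G) : eps κ x g⁻¹ = eps κ x g := by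
  have h1 := h.eps_mul x g g⁻¹
  rw [mul_inv_cancel, h.eps_one] at h1
  have h2 := h.eps_sq x g
  calc eps κ x g⁻¹ = eps κ x g * eps κ x g * eps κ x g⁻¹ := by rw [h2, one_mul]
    _ = eps κ x g * (eps κ x g * eps κ x g⁻¹) := by ring
    _ = eps κ x g := by rw [← h1, mul_one]

lemma Kap.eps_conj (h : Kap G c κ) (x : X) (g k : G) : eps κ x (k⁻¹ * g * k) = eps κ x g := by
  rw [h.eps_mul, h.eps_mul, h.eps_inv]
  have h2 := h.eps_sq x k
  calc eps κ x k * eps κ x g * eps κ x k = (eps κ x k * eps κ x k) * eps κ x g := by ring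
    _ = eps κ x g := by rw [h2, one_mul]

lemma Kap.eps_pow (h : Kap G c κ) (x : X) (g : G) (n : ℕ) : eps κ x (g ^ n) = eps κ x g ^ n := by
  induction n with
  | zero => rw [pow_zero, pow_zero, h.eps_one]
  | succ n ih => rw [pow_succ, pow_succ, h.eps_mul, ih]

lemma Kap.eps_c (h : Kap G c κ) (x : X) : eps κ x c = -1 := by
  unfold eps
  rw [h.neg, neg_mul, h.one]

/-- the subgroup of the elements which preserve the character -/
def Kap.ker (h : Kap G c κ) (x : X) : Subgroup G where
  carrier := {g | eps κ x g = 1}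
  mul_mem' := fun {a b} ha hb => by
    change eps κ x (a * b) = 1
    rw [h.eps_mul, ha, hb, one_mul]
  one_mem' := h.eps_one x
  inv_mem' := fun {a} ha => by
    change eps κ x a⁻¹ = 1
    rw [h.eps_inv]
    exact ha

lemma Kap.mem_ker (h : Kap G c κ) (x : X) (g : G) : g ∈ h.ker x ↔ eps κ x g = 1 := Iff.rfl

lemma Kap.eps_zpowers (h : Kap G c κ) (x : X) {g g' : G}
    (hgg : Subgroup.zpowers g = Subgroup.zpowers g') : eps κ x g = eps κ x g' := by
  have h1 : g ∈ h.ker x ↔ g' ∈ h.ker x := by
    rw [← Subgroup.zpowers_le, ← Subgroup.zpowers_le, hgg]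
  rw [h.mem_ker, h.mem_ker] at h1
  rcases pm_one (h.eps_sq x g) with h2 | h2 <;> rcases pm_one (h.eps_sq x g') with h3 | h3
  · rw [h2, h3]
  · rw [h2, h3] at h1
    norm_num at h1
  · rw [h2, h3] at h1
    norm_num at h1
  · rw [h2, h3]

open scoped commutatorElement in
lemma Kap.eps_commutator (h : Kap G c κ) (x : X) {z : G} (hz : z ∈ commutator G) :
    eps κ x z = 1 := by
  have h1 : commutator G ≤ h.ker x := by
    rw [commutator_def, Subgroup.commutator_le]
    intro a _ b _
    rw [h.mem_ker, commutatorElement_def, h.eps_mul, h.eps_mul, h.eps_mul, h.eps_inv, h.eps_inv]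
    have h2 := h.eps_sq x a
    have h3 := h.eps_sq x b
    calc eps κ x a * eps κ x b * eps κ x a * eps κ x b =
        (eps κ x a * eps κ x a) * (eps κ x b * eps κ x b) := by ring
      _ = 1 := by rw [h2, h3, one_mul]
  exact h1 hz

variable [Fintype G]

lemma cnt_inv (x y : X) (g : G) : cnt y x g = cnt x y g⁻¹ := by
  unfold cnt
  congr 1
  ext k
  simp only [Finset.mem_filter, Finset.mem_univ, true_and]
  have h1 : k⁻¹ * g⁻¹ * k = (k⁻¹ * g * k)⁻¹ := by group
  rw [h1, inv_smul_eq_iff]
  exact ⟨fun h => h.symm, fun h => h.symm⟩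

lemma D_inv (hc2 : c * c = 1) (x y : X) (g : G) :
    D c y x g = D c x y g⁻¹ := by
  have h1 : D c x y g⁻¹ = (cnt x y g⁻¹ : ℤ) - cnt x (c • y) g⁻¹ := rfl
  have h2 : cnt x (c • y) g⁻¹ = cnt (c • x) y g⁻¹ := by
    rw [← cnt_smul c x (c • y), ← mul_smul, hc2, one_smul]
  rw [h1, h2, ← cnt_inv, ← cnt_inv]
  rfl

variable [Fintype X]

/-- the sum of the differences over a row, with the character -/
lemma Kap.sum_row (h : Kap G c κ) (hc2 : c * c = 1) (x : X) (g : G) :
    ∑ y : X, D c x y g * (κ x * κ y) = 2 * (Fintype.card G : ℤ) * eps κ x g := by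
  have h2 : ∑ y : X, (cnt x (c • y) g : ℤ) * (κ x * κ y) =
      -∑ y : X, (cnt x y g : ℤ) * (κ x * κ y) := by
    rw [← sum_smul c (fun y => (cnt x (c • y) g : ℤ) * (κ x * κ y)), ← Finset.sum_neg_distrib]
    refine Finset.sum_congr rfl fun y _ => ?_
    rw [← mul_smul, hc2, one_smul, h.neg]
    ring
  have h3 : ∑ y : X, (cnt x y g : ℤ) * (κ x * κ y) = (Fintype.card G : ℤ) * eps κ x g := by
    have h4 : ∀ y : X, (cnt x y g : ℤ) * (κ x * κ y) =
        ∑ k : G, if (k⁻¹ * g * k) • x = y then κ x * κ y else 0 := by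
      intro y
      unfold cnt
      rw [Finset.card_filter]
      push_cast
      rw [Finset.sum_mul]
      refine Finset.sum_congr rfl fun k _ => ?_
      rw [ite_mul, one_mul, zero_mul]
    rw [Finset.sum_congr rfl fun y _ => h4 y, Finset.sum_comm]
    have h5 : ∀ k : G, (∑ y : X, if (k⁻¹ * g * k) • x = y then κ x * κ y else 0) =
        eps κ x g := by
      intro k
      rw [Finset.sum_ite_eq]
      simp only [Finset.mem_univ, if_true]
      rw [← h.eps_conj x g k]
      unfold eps
      ring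
    rw [Finset.sum_congr rfl fun k _ => h5 k, Finset.sum_const, Finset.card_univ, nsmul_eq_mul]
  unfold D
  simp only [sub_mul, Finset.sum_sub_distrib]
  rw [h2, h3]
  ring

/-- `G` acts homogeneously on the pairs of orbits of `c` -/
def Homog (c : G) (X : Type) [MulAction G X] : Prop :=
  ∀ x y x' y' : X, Nc c x y → Nc c x' y' → ∃ g : G,
    ((g • x = x' ∨ g • x = c • x') ∧ (g • y = y' ∨ g • y = c • y')) ∨
      ((g • x = y' ∨ g • x = c • y') ∧ (g • y = x' ∨ g • y = c • x'))

/-- **Homogeneous actions.** -/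
theorem Kap.D_add (h : Kap G c κ) (hc : ∀ g, c * g = g * c) (hc2 : c * c = 1)
    (hfree : ∀ x : X, c • x ≠ x) (hh : Homog c X) (x y : X) (g g' : G)
    (hgg : Subgroup.zpowers g = Subgroup.zpowers g') :
    D c x y g + D c y x g = D c x y g' + D c y x g' := by
  by_cases h1 : y = x
  · rw [h1, D_self_zpowers hc hc2 hgg x]
  by_cases h2 : y = c • x
  · rw [h2, D_right hc2, D_right hc2, D_left hc hc2, D_left hc hc2,
      D_self_zpowers hc hc2 hgg x]
  have hxy : Nc c x y := ⟨h1, h2⟩
  set W : G → X → X → ℤ := fun g x y => (D c x y g + D c y x g) * (κ x * κ y) with hW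
  have Wsymm : ∀ g x y, W g x y = W g y x := by
    intro g x y
    simp only [hW]
    ring
  have Wc : ∀ g x y, W g x (c • y) = W g x y := by
    intro g x y
    simp only [hW]
    rw [D_right hc2, D_left hc hc2, h.neg]
    ring
  have Wc' : ∀ g x y, W g (c • x) y = W g x y := by
    intro g x y
    rw [Wsymm, Wc, Wsymm]
  have Wk : ∀ (k : G) g x y, W g (k • x) (k • y) = W g x y := by
    intro k g x y
    simp only [hW]
    rw [D_smul hc, D_smul hc, h.mul]
  have Wall : ∀ g x' y', Nc c x' y' → W g x' y' = W g x y := by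
    intro g x' y' hxy'
    obtain ⟨k, ⟨h3, h4⟩ | ⟨h3, h4⟩⟩ := hh x y x' y' hxy hxy'
    · rw [← Wk k g x y]
      rcases h3 with h3 | h3 <;> rcases h4 with h4 | h4 <;> rw [h3, h4]
      · rw [Wc]
      · rw [Wc']
      · rw [Wc, Wc']
    · rw [← Wk k g x y, Wsymm]
      rcases h3 with h3 | h3 <;> rcases h4 with h4 | h4 <;> rw [h3, h4]
      · rw [Wc]
      · rw [Wc']
      · rw [Wc, Wc']
  have Wself : ∀ g, W g x x = 2 * D c x x g := by
    intro g
    simp only [hW]
    have := h.one x
    calc (D c x x g + D c x x g) * (κ x * κ x) = (D c x x g + D c x x g) * 1 := by rw [this]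
      _ = 2 * D c x x g := by ring
  have key : ∀ g, ((Fintype.card X : ℤ) - 2) * W g x y =
      4 * (Fintype.card G : ℤ) * eps κ x g - 4 * D c x x g := by
    intro g
    have e1 : ∑ z : X, W g x z = 4 * (Fintype.card G : ℤ) * eps κ x g := by
      have e2 : ∀ z : X, W g x z = D c x z g * (κ x * κ z) + D c x z g⁻¹ * (κ x * κ z) := by
        intro z
        simp only [hW]
        rw [D_inv hc2 x z]
        ring
      rw [Finset.sum_congr rfl fun z _ => e2 z, Finset.sum_add_distrib, h.sum_row hc2,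
        h.sum_row hc2, h.eps_inv]
      ring
    have e3 : ∀ z : X, W g x z = W g x y + cl c x z * (2 * D c x x g - W g x y) := by
      intro z
      by_cases h8 : z = x
      · rw [h8, cl_self hfree, Wself]
        ring
      · by_cases h9 : z = c • x
        · rw [h9, cl_c hfree, Wc, Wself]
          ring
        · rw [cl_of_not h8 h9, Wall g x z ⟨h8, h9⟩]
          ring
    have e4 : ∑ z : X, cl c x z = 2 := by
      have := sum_cl (c := c) hfree x (fun _ => 1)
      simpa using this
    have e5 : ∑ z : X, cl c x z * (2 * D c x x g - W g x y) = 2 * (2 * D c x x g - W g x y) := by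
      rw [← Finset.sum_mul, e4]
    have e6 : ∑ _z : X, W g x y = (Fintype.card X : ℤ) * W g x y := by
      rw [Finset.sum_const, Finset.card_univ, nsmul_eq_mul]
    rw [Finset.sum_congr rfl fun z _ => e3 z, Finset.sum_add_distrib, e5, e6] at e1
    linear_combination e1
  have h4 := card_four hc2 hfree hxy
  have h5 : ((Fintype.card X : ℤ) - 2) * W g x y = ((Fintype.card X : ℤ) - 2) * W g' x y := by
    rw [key, key, h.eps_zpowers x hgg, D_self_zpowers hc hc2 hgg x]
  have h6 : ((Fintype.card X : ℤ) - 2) ≠ 0 := by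
    have : (4 : ℤ) ≤ Fintype.card X := by exact_mod_cast h4
    omega
  have h7 := mul_left_cancel₀ h6 h5
  simp only [hW] at h7
  have h8 : κ x * κ y ≠ 0 := by
    have h9 := h.one x
    have h10 := h.one y
    intro h11
    have : (κ x * κ y) * (κ x * κ y) = 1 := by
      calc (κ x * κ y) * (κ x * κ y) = (κ x * κ x) * (κ y * κ y) := by ring
        _ = 1 := by rw [h9, h10, one_mul]
    rw [h11] at this
    norm_num at this
  exact mul_right_cancel₀ h8 h7

end Pool.Agent.V7H4.PD
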