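import Pool.Agent.V7H4.PD.Ga
import Pool.Agent.V7H4.PD.Gb

/-!
# The converse: differences from the class functions of all half-systems
-/

set_option autoImplicit false

open scoped Classical

namespace Pool.Agent.V7H4.PD

open Pool.Agent.Q11.CZ Pool.Agent.N770.CP Pool.Agent.V7H4.CT

variable {G : Type} [Group G] [Fintype G] {X : Type} [Fintype X] [MulAction G X] {c : G}

/-- odd functions with values `± 1` -/
structure OddSign (c : G) (κ : X → ℤ) : Prop where
  one : ∀ x, κ x * κ x = 1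
  neg : ∀ x, κ (c • x) = -κ x

/-- the half-system of an odd function -/
noncomputable def half (κ : X → ℤ) : Finset X := Finset.univ.filter fun x => κ x = 1

omit [Fintype G] in
lemma half_isHalf {κ : X → ℤ} (h : OddSign c κ) : IsHalf c (half κ) := by
  intro x
  unfold half
  simp only [Finset.mem_filter, Finset.mem_univ, true_and]
  rw [h.neg]
  rcases pm_one (h.one x) with h1 | h1
  · rw [h1]; norm_num
  · rw [h1]; norm_num

omit [Fintype G] [Fintype X] [MulAction G X] [Group G] in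
lemma ind_eq {κ : X → ℤ} (h : ∀ x, κ x * κ x = 1) (x : X) :
    (if κ x = 1 then (1 : ℚ) else 0) = (1 + κ x) / 2 := by
  rcases pm_one (h x) with h1 | h1
  · rw [h1]; norm_num
  · rw [h1]; norm_num

lemma a0_half {κ : X → ℤ} (h : ∀ x, κ x * κ x = 1) (x : X) (g : G) :
    (a0 x (half κ) g : ℚ) = (∑ y : X, (1 + κ y) / 2 * (cnt x y g : ℚ)) / Fintype.card G := by
  rw [a0_cnt]
  congr 1
  unfold half
  rw [Finset.sum_filter]
  refine Finset.sum_congr rfl fun y _ => ?_
  rw [← ind_eq h, ite_mul, one_mul, zero_mul]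

/-- the odd function which is `1` at `y` -/
noncomputable def uu (c : G) (y : X) : X → ℤ := Pi.single y 1 - Pi.single (c • y) 1

omit [Fintype G] [Fintype X] in
lemma uu_self (hfree : ∀ x : X, c • x ≠ x) (y : X) : uu c y y = 1 := by
  unfold uu
  rw [Pi.sub_apply, Pi.single_eq_same, Pi.single_eq_of_ne (hfree y).symm, sub_zero]

omit [Fintype G] [Fintype X] in
lemma uu_c (hfree : ∀ x : X, c • x ≠ x) (y : X) : uu c y (c • y) = -1 := by
  unfold uu
  rw [Pi.sub_apply, Pi.single_eq_same, Pi.single_eq_of_ne (hfree y), zero_sub]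

omit [Fintype G] [Fintype X] in
lemma uu_of_ne {y z : X} (h1 : z ≠ y) (h2 : z ≠ c • y) : uu c y z = 0 := by
  unfold uu
  rw [Pi.sub_apply, Pi.single_eq_of_ne h1, Pi.single_eq_of_ne h2, sub_zero]

omit [Fintype G] [Fintype X] in
lemma uu_neg (hc2 : c * c = 1) (hfree : ∀ x : X, c • x ≠ x) (y z : X) :
    uu c y (c • z) = -uu c y z := by
  by_cases h1 : z = y
  · rw [h1, uu_self hfree, uu_c hfree]
  by_cases h2 : z = c • y
  · rw [h2, uu_c hfree, ← mul_smul, hc2, one_smul, uu_self hfree, neg_neg]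
  rw [uu_of_ne h1 h2, neg_zero]
  refine uu_of_ne (fun h => h2 ?_) (fun h => h1 (smul_left_cancel c h))
  rw [← h, ← mul_smul, hc2, one_smul]

omit [Fintype G] [Fintype X] in
/-- the change of the values at the orbit of `y` -/
lemma flip_oddSign (hc2 : c * c = 1) (hfree : ∀ x : X, c • x ≠ x) {κ : X → ℤ}
    (h : OddSign c κ) (y : X) : OddSign c (κ - (2 * κ y) • uu c y) := by
  constructor
  · intro x
    simp only [Pi.sub_apply, Pi.smul_apply, smul_eq_mul]
    by_cases h1 : x = y
    · rw [h1, uu_self hfree]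
      have := h.one y
      linear_combination this
    by_cases h2 : x = c • y
    · rw [h2, uu_c hfree, h.neg]
      have := h.one y
      linear_combination this
    rw [uu_of_ne h1 h2]
    have := h.one x
    linear_combination this
  · intro x
    simp only [Pi.sub_apply, Pi.smul_apply, smul_eq_mul]
    rw [h.neg, uu_neg hc2 hfree]
    ring

/-- **The differences from the functions `a⁰`.** -/
theorem twist_D (hc2 : c * c = 1) (hfree : ∀ x : X, c • x ≠ x) {κ : X → ℤ}
    (h : OddSign c κ) (x : X)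
    (hall : ∀ Φ : Finset X, IsHalf c Φ → Twist (a0 x Φ : G → ℚ)) (y : X) :
    Twist (fun g : G => (D c x y g : ℚ)) := by
  have h1 := hall _ (half_isHalf h)
  have h2 := hall _ (half_isHalf (flip_oddSign hc2 hfree h y))
  have hG : (Fintype.card G : ℚ) ≠ 0 := card_ne
  have hκy : (κ y : ℚ) * κ y = 1 := by exact_mod_cast h.one y
  have key : ∀ g : G, (D c x y g : ℚ) =
      (Fintype.card G : ℚ) * κ y * (a0 x (half κ) g -
        a0 x (half (κ - (2 * κ y) • uu c y)) g) := by
    intro g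
    rw [a0_half h.one, a0_half (flip_oddSign hc2 hfree h y).one, ← sub_div,
      ← Finset.sum_sub_distrib]
    have e1 : ∀ z : X, (1 + (κ z : ℚ)) / 2 * (cnt x z g : ℚ) -
        (1 + (((κ - (2 * κ y) • uu c y) z : ℤ) : ℚ)) / 2 * (cnt x z g : ℚ) =
          κ y * ((uu c y z : ℤ) * (cnt x z g : ℚ)) := by
      intro z
      simp only [Pi.sub_apply, Pi.smul_apply, smul_eq_mul]
      push_cast
      ring
    have e2 : ∑ z : X, (uu c y z : ℤ) * (cnt x z g : ℚ) = D c x y g := by
      have e3 : ∀ z : X, ((uu c y z : ℤ) : ℚ) * (cnt x z g : ℚ) =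
          (if z = y then (cnt x z g : ℚ) else 0) - (if z = c • y then (cnt x z g : ℚ) else 0) := by
        intro z
        by_cases h3 : z = y
        · rw [h3, uu_self hfree, if_pos rfl, if_neg (hfree y).symm]
          push_cast
          ring
        by_cases h4 : z = c • y
        · rw [h4, uu_c hfree, if_pos rfl, if_neg (hfree y)]
          push_cast
          ring
        rw [uu_of_ne h3 h4, if_neg h3, if_neg h4]
        push_cast
        ring
      rw [Finset.sum_congr rfl fun z _ => e3 z, Finset.sum_sub_distrib, Finset.sum_ite_eq',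
        Finset.sum_ite_eq']
      simp only [Finset.mem_univ, if_true]
      unfold D
      push_cast
      rfl
    rw [Finset.sum_congr rfl fun z _ => e1 z, ← Finset.mul_sum, e2]
    field_simp
    linear_combination (-(D c x y g : ℚ)) * hκy
  intro j hj g z hz
  have h3 := h1 j hj g z hz
  have h4 := h2 j hj g z hz
  simp only [key]
  linear_combination ((Fintype.card G : ℚ) * κ y) * h3 - ((Fintype.card G : ℚ) * κ y) * h4

/-- the matrix of the differences -/
noncomputable def DM (c : G) (X : Type) [MulAction G X] (g : G) : Matrix X X ℤ :=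
  Matrix.of fun x y => D c x y g

open Matrix in
lemma uu_DM (hc : ∀ g, c * g = g * c) (hc2 : c * c = 1) (y z : X) (g : G) :
    uu c y ⬝ᵥ (DM c X g *ᵥ uu c z) = 4 * D c y z g := by
  unfold uu
  rw [mulVec_sub, sub_dotProduct, dotProduct_sub, dotProduct_sub, single_dotProduct,
    single_dotProduct, single_dotProduct, single_dotProduct]
  simp only [mulVec_single, one_mul, MulOpposite.op_one, one_smul, Matrix.col_apply]
  unfold DM
  simp only [Matrix.of_apply]
  rw [D_right hc2, D_left hc hc2, D_left hc hc2, D_right hc2]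
  ring

open Matrix in
lemma T_half (hc : ∀ g, c * g = g * c) (hc2 : c * c = 1) {κ : X → ℤ} (h : OddSign c κ) (g : G) :
    (T (half κ) g : ℚ) = (half κ).card / 2 +
      ((κ ⬝ᵥ (DM c X g *ᵥ κ) : ℤ) : ℚ) / (8 * Fintype.card G) := by
  have h1 := T_add hc (half_isHalf h) g
  have hG : (Fintype.card G : ℚ) ≠ 0 := card_ne
  have key : T (half κ) g - T (half κ) (c * g) =
      ((∑ x ∈ half κ, ∑ y ∈ half κ, D c x y g : ℤ) : ℚ) / Fintype.card G := by
    unfold T
    rw [← Finset.sum_sub_distrib, Int.cast_sum, Finset.sum_div]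
    refine Finset.sum_congr rfl (fun x _ => ?_)
    rw [a0_cnt, a0_cnt, ← sub_div, ← Finset.sum_sub_distrib]
    congr 1
    unfold D
    push_cast
    refine Finset.sum_congr rfl (fun y _ => ?_)
    rw [cnt_c hc x y hc2]
  have e0 : ∀ f : X → ℤ, (∀ x, f (c • x) = f x) →
      ∑ x : X, f x = 2 * ∑ x ∈ half κ, f x := by
    intro f hf
    have e1 : ∑ x : X, f x = ∑ x ∈ half κ, f x + ∑ x ∈ Finset.univ.filter (fun x => ¬ κ x = 1), f x := by
      unfold half
      rw [Finset.sum_filter_add_sum_filter_not]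
    have e2 : ∑ x ∈ Finset.univ.filter (fun x => ¬ κ x = 1), f x = ∑ x ∈ half κ, f x := by
      unfold half
      rw [Finset.sum_filter, Finset.sum_filter, ← sum_smul c]
      refine Finset.sum_congr rfl fun x _ => ?_
      rw [h.neg, hf]
      rcases pm_one (h.one x) with h3 | h3
      · rw [h3]; norm_num
      · rw [h3]; norm_num
    rw [e1, e2]
    ring
  have e4 : κ ⬝ᵥ (DM c X g *ᵥ κ) = 4 * ∑ x ∈ half κ, ∑ y ∈ half κ, D c x y g := by
    have e5 : κ ⬝ᵥ (DM c X g *ᵥ κ) = ∑ x : X, κ x * ∑ y : X, D c x y g * κ y := rfl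
    have e6 : ∀ x : X, ∑ y : X, D c x y g * κ y = 2 * ∑ y ∈ half κ, D c x y g := by
      intro x
      rw [e0 (fun y => D c x y g * κ y) (fun y => by rw [D_right hc2, h.neg]; ring)]
      congr 1
      refine Finset.sum_congr rfl fun y hy => ?_
      unfold half at hy
      rw [(Finset.mem_filter.1 hy).2, mul_one]
    rw [e5, e0 (fun x => κ x * ∑ y : X, D c x y g * κ y)]
    · have e7 : ∀ x ∈ half κ, κ x * ∑ y : X, D c x y g * κ y = 2 * ∑ y ∈ half κ, D c x y g := by
        intro x hx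
        unfold half at hx
        rw [(Finset.mem_filter.1 hx).2, one_mul, e6]
      rw [Finset.sum_congr rfl e7, ← Finset.mul_sum]
      ring
    · intro x
      rw [h.neg]
      have : ∀ y : X, D c (c • x) y g * κ y = -(D c x y g * κ y) := fun y => by
        rw [D_left hc hc2]; ring
      rw [Finset.sum_congr rfl fun y _ => this y, Finset.sum_neg_distrib]
      ring
  rw [e4]
  have e8 : ((4 * ∑ x ∈ half κ, ∑ y ∈ half κ, D c x y g : ℤ) : ℚ) / (8 * Fintype.card G) =
      (((∑ x ∈ half κ, ∑ y ∈ half κ, D c x y g : ℤ) : ℚ) / Fintype.card G) / 2 := by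
    rw [Int.cast_mul]
    field_simp
    push_cast
    ring
  rw [e8, ← key]
  linear_combination h1 / 2

open Matrix in
/-- **The symmetrized differences from the functions of the heights.** -/
theorem twist_D_add (hc : ∀ g, c * g = g * c) (hc2 : c * c = 1) (hfree : ∀ x : X, c • x ≠ x)
    {κ : X → ℤ} (h : OddSign c κ)
    (hall : ∀ Φ : Finset X, IsHalf c Φ → Twist (T Φ : G → ℚ)) (y z : X) :
    Twist (fun g : G => ((D c y z g + D c z y g : ℤ) : ℚ)) := by
  by_cases h1 : z = y
  · refine twist_of_zInv fun g g' hgg => ?_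
    simp only [h1]
    rw [D_self_zpowers hc hc2 hgg y]
  by_cases h2 : z = c • y
  · refine twist_of_zInv fun g g' hgg => ?_
    simp only [h2]
    rw [D_right hc2, D_right hc2, D_left hc hc2, D_left hc hc2, D_self_zpowers hc hc2 hgg y]
  have hG : (Fintype.card G : ℚ) ≠ 0 := card_ne
  -- the quadratic forms
  have hquad : ∀ κ : X → ℤ, OddSign c κ →
      Twist (fun g : G => ((κ ⬝ᵥ (DM c X g *ᵥ κ) : ℤ) : ℚ)) := by
    intro κ hκ j hj g w hw
    have h3 := hall _ (half_isHalf hκ) j hj g w hw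
    rw [T_half hc hc2 hκ, T_half hc hc2 hκ, T_half hc hc2 hκ, T_half hc hc2 hκ] at h3
    field_simp at h3
    linear_combination h3 / 2
  set a : X → ℤ := (2 * κ y) • uu c y with ha
  have hk1 := flip_oddSign hc2 hfree h y
  have hk2 := flip_oddSign hc2 hfree h z
  have hk3 := flip_oddSign hc2 hfree hk1 z
  have hzy : (κ - a) z = κ z := by
    rw [ha]
    simp only [Pi.sub_apply, Pi.smul_apply, smul_eq_mul]
    rw [uu_of_ne h1 h2]
    ring
  rw [← ha] at hk1 hk3
  rw [hzy] at hk3
  set b : X → ℤ := (2 * κ z) • uu c z with hb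
  have key : ∀ g : G, 16 * (κ y * κ z) * (D c y z g + D c z y g) =
      κ ⬝ᵥ (DM c X g *ᵥ κ) - (κ - a) ⬝ᵥ (DM c X g *ᵥ (κ - a)) -
        (κ - b) ⬝ᵥ (DM c X g *ᵥ (κ - b)) + (κ - a - b) ⬝ᵥ (DM c X g *ᵥ (κ - a - b)) := by
    intro g
    have e1 : a ⬝ᵥ (DM c X g *ᵥ b) = 16 * (κ y * κ z) * D c y z g := by
      rw [ha, hb, mulVec_smul, dotProduct_smul, smul_dotProduct, uu_DM hc hc2]
      simp only [smul_eq_mul]
      ring
    have e2 : b ⬝ᵥ (DM c X g *ᵥ a) = 16 * (κ y * κ z) * D c z y g := by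
      rw [ha, hb, mulVec_smul, dotProduct_smul, smul_dotProduct, uu_DM hc hc2]
      simp only [smul_eq_mul]
      ring
    have e3 : 16 * (κ y * κ z) * (D c y z g + D c z y g) =
        a ⬝ᵥ (DM c X g *ᵥ b) + b ⬝ᵥ (DM c X g *ᵥ a) := by
      rw [e1, e2]
      ring
    rw [e3]
    simp only [mulVec_sub, sub_dotProduct, dotProduct_sub]
    ring
  have hκ1 : (κ y * κ z) * (κ y * κ z) = 1 := by
    have h3 := h.one y
    have h4 := h.one z
    calc (κ y * κ z) * (κ y * κ z) = (κ y * κ y) * (κ z * κ z) := by ring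
      _ = 1 := by rw [h3, h4, one_mul]
  have hκ1' : ((κ y * κ z : ℤ) : ℚ) * ((κ y * κ z : ℤ) : ℚ) = 1 := by exact_mod_cast hκ1
  have key' : ∀ g : G, ((D c y z g + D c z y g : ℤ) : ℚ) = ((κ y * κ z : ℤ) : ℚ) / 16 *
      (((κ ⬝ᵥ (DM c X g *ᵥ κ) : ℤ) : ℚ) - (((κ - a) ⬝ᵥ (DM c X g *ᵥ (κ - a)) : ℤ) : ℚ) -
        (((κ - b) ⬝ᵥ (DM c X g *ᵥ (κ - b)) : ℤ) : ℚ) +
          (((κ - a - b) ⬝ᵥ (DM c X g *ᵥ (κ - a - b)) : ℤ) : ℚ)) := by
    intro g
    have h3 : ((16 * (κ y * κ z) * (D c y z g + D c z y g) : ℤ) : ℚ) =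
      ((κ ⬝ᵥ (DM c X g *ᵥ κ) - (κ - a) ⬝ᵥ (DM c X g *ᵥ (κ - a)) -
        (κ - b) ⬝ᵥ (DM c X g *ᵥ (κ - b)) + (κ - a - b) ⬝ᵥ (DM c X g *ᵥ (κ - a - b)) : ℤ) : ℚ) := by
      rw [key g]
    rw [Int.cast_add, Int.cast_sub, Int.cast_sub] at h3
    rw [← h3, Int.cast_mul (16 * (κ y * κ z)), Int.cast_mul 16 (κ y * κ z)]
    generalize ((κ y * κ z : ℤ) : ℚ) = r at *
    generalize ((D c y z g + D c z y g : ℤ) : ℚ) = s
    push_cast
    linear_combination (-s) * hκ1'
  intro j hj g w hw
  have e1 := hquad κ h j hj g w hw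
  have e2 := hquad _ hk1 j hj g w hw
  have e3 := hquad _ hk2 j hj g w hw
  have e4 := hquad _ hk3 j hj g w hw
  simp only [key']
  simp only at e1 e2 e3 e4
  linear_combination (((κ y * κ z : ℤ) : ℚ) / 16) * (e1 - e2 - e3 + e4)

end Pool.Agent.V7H4.PD
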